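import Mathlib
import Pool.Graph.R_seed8.Helper601.Mertens

/-!
# Zero sets with few bad primes: rough numbers in the zero set are rare

`Z` is a set of positive integers such that for each `m` not in `Z` the primes `p` prime to `2 m` with
`m p ^ a` in `Z` for some `a` have a product at most `exp (C (1 + log m) ^ 3)`. For `m` not in `Z` the number of the
`k ≤ X` without prime factors `≤ z` such that `m k` is in `Z` is at most `D X / √z`, uniformly in `X` and `z`.
-/

set_option autoImplicit false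

namespace Pool.Agent.H48.KV

open Finset

/-- all prime factors are larger than `z` -/
def Rough (z k : ℕ) : Prop := ∀ p : ℕ, p.Prime → p ∣ k → z < p

/-- few bad primes -/
def Few (Z : ℕ → Prop) (C : ℝ) : Prop := ∀ m : ℕ, 1 ≤ m → ¬ Z m → ∀ S : Finset ℕ,
  (∀ p ∈ S, p.Prime ∧ ¬ p ∣ 2 * m ∧ ∃ a : ℕ, Z (m * p ^ a)) →
    ∑ p ∈ S, Real.log p ≤ C * (1 + Real.log m) ^ 3

/-- the first bad step -/
theorem chain (Z : ℕ → Prop) (m0 z : ℕ) (h0 : ¬ Z m0) : ∀ k : ℕ, 0 < k → Rough z k → Z (m0 * k) →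
    ∃ l p a : ℕ, 0 < l ∧ p.Prime ∧ z < p ∧ (∀ q : ℕ, q.Prime → q ∣ l → q < p) ∧ Rough z l ∧
      ¬ Z (m0 * l) ∧ Z (m0 * l * p ^ a) ∧ l * p ∣ k := by
  intro k
  induction k using Nat.strong_induction_on with
  | _ k ih =>
    intro hk hr hZ
    have hk1 : k ≠ 1 := by
      rintro rfl
      rw [mul_one] at hZ
      exact h0 hZ
    have hne : k.primeFactors.Nonempty := Nat.nonempty_primeFactors.2 (by omega)
    obtain ⟨p, hp⟩ : ∃ p, p = k.primeFactors.max' hne := ⟨_, rfl⟩
    have hpm : p ∈ k.primeFactors := by rw [hp]; exact max'_mem _ _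
    have hpp : p.Prime := Nat.prime_of_mem_primeFactors hpm
    have hpk : p ∣ k := Nat.dvd_of_mem_primeFactors hpm
    have hmax : ∀ q : ℕ, q.Prime → q ∣ k → q ≤ p := by
      intro q hq hqk
      rw [hp]
      exact le_max' _ _ (Nat.mem_primeFactors.2 ⟨hq, hqk, hk.ne'⟩)
    obtain ⟨l, hl⟩ : ∃ l, l = k / p ^ k.factorization p := ⟨_, rfl⟩
    have hlk : p ^ k.factorization p * l = k := by
      rw [hl]; exact Nat.ordProj_mul_ordCompl_eq_self k p
    have hfac : 0 < k.factorization p := hpp.factorization_pos_of_dvd hk.ne' hpk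
    have hpl : ¬ p ∣ l := by
      rw [hl]
      exact Nat.not_dvd_ordCompl hpp hk.ne'
    have hlpos : 0 < l := by
      rcases Nat.eq_zero_or_pos l with h | h
      · rw [h, mul_zero] at hlk
        omega
      · exact h
    have hldvd : l ∣ k := ⟨p ^ k.factorization p, by rw [mul_comm]; exact hlk.symm⟩
    have hlpk : l * p ∣ k := by
      rw [← hlk, mul_comm l p]
      exact Nat.mul_dvd_mul_right (dvd_pow_self p hfac.ne') l
    have hrl : Rough z l := fun q hq hql => hr q hq (hql.trans hldvd)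
    by_cases hZl : Z (m0 * l)
    · have hlt : l < k := by
        have h2 : 2 ≤ p ^ k.factorization p :=
          hpp.two_le.trans (Nat.le_self_pow hfac.ne' p)
        nlinarith
      obtain ⟨l', p', a', h1, h2, h3, h4, h5, h6, h7, h8⟩ := ih l hlt hlpos hrl hZl
      exact ⟨l', p', a', h1, h2, h3, h4, h5, h6, h7, h8.trans hldvd⟩
    · refine ⟨l, p, k.factorization p, hlpos, hpp, hr p hpp hpk, ?_, hrl, hZl, ?_, hlpk⟩
      · intro q hq hql
        rcases lt_or_eq_of_le (hmax q hq (hql.trans hldvd)) with h | h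
        · exact h
        · exact absurd (h ▸ hql) hpl
      · have : m0 * l * p ^ k.factorization p = m0 * k := by
          rw [mul_assoc, mul_comm l, hlk]
        rw [this]
        exact hZ

/-- the largest prime factor, or `z` if it is smaller -/
noncomputable def top (z l : ℕ) : ℕ := l.primeFactors.sup id ⊔ z

theorem top_ge (z l : ℕ) : z ≤ top z l := le_sup_right

theorem le_top (z l q : ℕ) (hl : l ≠ 0) (hq : q.Prime) (hql : q ∣ l) : q ≤ top z l := by
  refine le_trans ?_ le_sup_left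
  exact Finset.le_sup (f := id) (Nat.mem_primeFactors.2 ⟨hq, hql, hl⟩)

theorem top_lt (z l p : ℕ) (hz : z < p) (h : ∀ q : ℕ, q.Prime → q ∣ l → q < p) : top z l < p := by
  unfold top
  rw [sup_lt_iff]
  refine ⟨?_, hz⟩
  rw [Finset.sup_lt_iff (by rw [Nat.bot_eq_zero]; omega)]
  intro q hq
  exact h q (Nat.prime_of_mem_primeFactors hq) (Nat.dvd_of_mem_primeFactors hq)

open Classical in
/-- counting by the first bad step -/
theorem count_le (Z : ℕ → Prop) (C : ℝ) (hC : 0 ≤ C) (hF : Few Z C) (m0 z X : ℕ) (hm0 : 1 ≤ m0) (h0 : ¬ Z m0)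
    (hz : m0 ≤ z) (hz3 : 3 ≤ z) :
    (#{k ∈ Icc 1 X | Rough z k ∧ Z (m0 * k)} : ℝ) ≤
      X * ∑ l ∈ (Icc 1 X).filter (Rough z), C * (1 + Real.log ((m0 * l : ℕ) : ℝ)) ^ 3 / (l * top z l) := by
  obtain ⟨P, hP⟩ : ∃ P : ℕ → Finset ℕ, P = fun l => (Icc 1 X).filter (fun p => p.Prime ∧ z < p ∧
    (∀ q : ℕ, q.Prime → q ∣ l → q < p) ∧ ∃ a : ℕ, Z (m0 * l * p ^ a)) := ⟨_, rfl⟩
  obtain ⟨L, hL⟩ : ∃ L : Finset ℕ, L = (Icc 1 X).filter (fun l => Rough z l ∧ ¬ Z (m0 * l)) := ⟨_, rfl⟩
  have hsub : (Icc 1 X).filter (fun k => Rough z k ∧ Z (m0 * k)) ⊆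
      L.biUnion (fun l => (P l).biUnion (fun p => (Icc 1 X).filter (fun k => l * p ∣ k))) := by
    intro k hk
    rw [mem_filter, mem_Icc] at hk
    obtain ⟨⟨hk1, hkX⟩, hr, hZ⟩ := hk
    obtain ⟨l, p, a, h1, h2, h3, h4, h5, h6, h7, h8⟩ := chain Z m0 z h0 k hk1 hr hZ
    have hlpk : l * p ≤ k := Nat.le_of_dvd hk1 h8
    have hp1 : 1 ≤ p := h2.one_lt.le
    have hlX : l ≤ X := (Nat.le_mul_of_pos_right l h2.pos).trans (hlpk.trans hkX)
    have hpX : p ≤ X := (Nat.le_mul_of_pos_left p h1).trans (hlpk.trans hkX)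
    rw [mem_biUnion]
    refine ⟨l, ?_, ?_⟩
    · rw [hL, mem_filter, mem_Icc]
      exact ⟨⟨h1, hlX⟩, h5, h6⟩
    · rw [mem_biUnion]
      refine ⟨p, ?_, ?_⟩
      · rw [hP, mem_filter, mem_Icc]
        exact ⟨⟨hp1, hpX⟩, h2, h3, h4, a, h7⟩
      · rw [mem_filter, mem_Icc]
        exact ⟨⟨hk1, hkX⟩, h8⟩
  have hmul : ∀ d : ℕ, 1 ≤ d → (#((Icc 1 X).filter (fun k => d ∣ k)) : ℝ) ≤ X / d := by
    intro d hd
    have h1 : (Icc 1 X).filter (fun k => d ∣ k) = (Ioc 0 X).filter (fun k => d ∣ k) := by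
      ext k
      simp only [mem_filter, mem_Icc, mem_Ioc]
      omega
    rw [h1, Nat.Ioc_filter_dvd_card_eq_div]
    exact Nat.cast_div_le
  calc (#{k ∈ Icc 1 X | Rough z k ∧ Z (m0 * k)} : ℝ)
      ≤ (#(L.biUnion (fun l => (P l).biUnion (fun p => (Icc 1 X).filter (fun k => l * p ∣ k)))) : ℝ) := by
        exact_mod_cast card_le_card hsub
    _ ≤ ∑ l ∈ L, ∑ p ∈ P l, (#((Icc 1 X).filter (fun k => l * p ∣ k)) : ℝ) := by
        refine le_trans (Nat.cast_le.2 card_biUnion_le) ?_
        push_cast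
        refine sum_le_sum fun l _ => ?_
        refine le_trans (Nat.cast_le.2 card_biUnion_le) ?_
        push_cast
        exact le_refl _
    _ ≤ ∑ l ∈ L, ∑ p ∈ P l, ((X : ℝ) / l) * (Real.log p / top z l) := by
        refine sum_le_sum fun l hl => sum_le_sum fun p hp => ?_
        rw [hL, mem_filter, mem_Icc] at hl
        rw [hP, mem_filter, mem_Icc] at hp
        obtain ⟨⟨hl1, _⟩, _, _⟩ := hl
        obtain ⟨⟨hp1, _⟩, hpp, hzp, hq, _⟩ := hp
        have h1 := hmul (l * p) (Nat.mul_pos hl1 hp1)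
        refine h1.trans ?_
        have hl0 : (0 : ℝ) < l := by exact_mod_cast hl1
        have hp0 : (0 : ℝ) < p := by exact_mod_cast hp1
        have ht : top z l < p := top_lt z l p hzp hq
        have ht0 : 0 < top z l := lt_of_lt_of_le (by omega) (top_ge z l)
        have ht0' : (0 : ℝ) < top z l := by exact_mod_cast ht0
        have htp : (top z l : ℝ) ≤ p := by exact_mod_cast ht.le
        have hlog : 1 ≤ Real.log p := by
          rw [Real.le_log_iff_exp_le hp0]
          have h3 : (4 : ℝ) ≤ p := by exact_mod_cast (show 4 ≤ p by omega)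
          have := Real.exp_one_lt_d9
          linarith
        push_cast
        rw [show (X : ℝ) / (l * p) = (X : ℝ) / l * (1 / p) by field_simp]
        refine mul_le_mul_of_nonneg_left ?_ (by positivity)
        rw [div_le_div_iff₀ hp0 ht0']
        nlinarith
    _ ≤ ∑ l ∈ L, ((X : ℝ) / l) * (C * (1 + Real.log ((m0 * l : ℕ) : ℝ)) ^ 3 / top z l) := by
        refine sum_le_sum fun l hl => ?_
        rw [← mul_sum, ← sum_div]
        rw [hL, mem_filter, mem_Icc] at hl
        obtain ⟨⟨hl1, _⟩, hlr, hlZ⟩ := hl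
        refine mul_le_mul_of_nonneg_left ?_ (by positivity)
        refine div_le_div_of_nonneg_right ?_ (by positivity)
        refine hF (m0 * l) (Nat.mul_pos hm0 hl1) hlZ (P l) ?_
        intro p hp
        rw [hP, mem_filter, mem_Icc] at hp
        obtain ⟨⟨hp1, _⟩, hpp, hzp, hq, ha⟩ := hp
        refine ⟨hpp, ?_, ha⟩
        intro hd
        rw [hpp.dvd_mul, hpp.dvd_mul] at hd
        rcases hd with hd | hd | hd
        · have := Nat.le_of_dvd (by omega) hd
          omega
        · have := Nat.le_of_dvd (by omega) hd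
          omega
        · exact lt_irrefl p (hq p hpp hd)
    _ ≤ ∑ l ∈ (Icc 1 X).filter (Rough z),
          ((X : ℝ) / l) * (C * (1 + Real.log ((m0 * l : ℕ) : ℝ)) ^ 3 / top z l) := by
        refine sum_le_sum_of_subset_of_nonneg ?_ ?_
        · intro l hl
          rw [hL, mem_filter] at hl
          rw [mem_filter]
          exact ⟨hl.1, hl.2.1⟩
        · intro l hl _
          rw [mem_filter, mem_Icc] at hl
          have h1 : 0 ≤ Real.log ((m0 * l : ℕ) : ℝ) := Real.log_natCast_nonneg _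
          positivity
    _ = X * ∑ l ∈ (Icc 1 X).filter (Rough z),
          C * (1 + Real.log ((m0 * l : ℕ) : ℝ)) ^ 3 / (l * top z l) := by
        rw [mul_sum]
        refine sum_congr rfl fun l hl => ?_
        rw [mem_filter, mem_Icc] at hl
        have hl0 : (l : ℝ) ≠ 0 := by
          have := hl.1.1
          positivity
        have ht0 : 0 < top z l := lt_of_lt_of_le (by omega) (top_ge z l)
        have ht0' : (top z l : ℝ) ≠ 0 := by positivity
        field_simp

end Pool.Agent.H48.KV
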