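import Mathlib
import Pool.Graph.R_seed8.Helper601.Mertens
import Pool.Agent.H48.KV.Chain

/-! # The sum over the rough numbers -/

set_option autoImplicit false

namespace Pool.Agent.H48.KV

open Finset

theorem exp_neg_le (t : ℝ) (h0 : 0 ≤ t) (h1 : t ≤ 1 / 2) : Real.exp (-(2 * t)) ≤ 1 - t := by
  have h2 : 1 + 2 * t ≤ Real.exp (2 * t) := by
    have := Real.add_one_le_exp (2 * t)
    linarith
  rw [Real.exp_neg]
  have h3 : (Real.exp (2 * t))⁻¹ ≤ (1 + 2 * t)⁻¹ := inv_anti₀ (by linarith) h2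
  refine h3.trans ?_
  rw [inv_le_iff_one_le_mul₀ (by linarith)]
  nlinarith

/-- `n ↦ n ^ (-s)` -/
noncomputable def npow (s : ℝ) : ℕ →* ℝ where
  toFun n := (n : ℝ) ^ (-s)
  map_one' := by simp
  map_mul' m n := by
    push_cast
    exact Real.mul_rpow (Nat.cast_nonneg _) (Nat.cast_nonneg _)

theorem npow_apply (s : ℝ) (n : ℕ) : npow s n = (n : ℝ) ^ (-s) := rfl

open Classical in
/-- Rankin's trick with the exponent `1 - 1 / log y` -/
theorem euler (y z : ℕ) (hz : 6 ≤ z) (hy : z < y) (T : Finset ℕ)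
    (hT : ∀ l ∈ T, l ≠ 0 ∧ ∀ q : ℕ, q.Prime → q ∣ l → z < q ∧ q ≤ y) :
    ∑ l ∈ T, (l : ℝ) ^ (-(1 - 1 / Real.log y)) ≤
      Real.exp (6 * ∑ p ∈ (Icc 1 y).filter Nat.Prime, (1 : ℝ) / p) := by
  have hy0 : (0 : ℝ) < y := by exact_mod_cast (show 0 < y by omega)
  have hlog : 1 < Real.log y := by
    rw [Real.lt_log_iff_exp_lt hy0]
    have h3 : (7 : ℝ) ≤ y := by exact_mod_cast (show 7 ≤ y by omega)
    have := Real.exp_one_lt_d9
    linarith
  obtain ⟨s, hs⟩ : ∃ s : ℝ, s = 1 - 1 / Real.log y := ⟨_, rfl⟩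
  have hs0 : 0 < s := by
    rw [hs, sub_pos, div_lt_one (by linarith)]
    exact hlog
  have hlt : ∀ {p : ℕ}, p.Prime → ‖npow s p‖ < 1 := by
    intro p hp
    have hp1 : (1 : ℝ) < p := by exact_mod_cast hp.one_lt
    rw [npow_apply, Real.norm_of_nonneg (by positivity)]
    exact Real.rpow_lt_one_of_one_lt_of_neg hp1 (by linarith)
  have hsum := (EulerProduct.summable_and_hasSum_factoredNumbers_prod_filter_prime_geometric
    (f := npow s) hlt (Ioc z y)).2
  have h1 : ∑ l ∈ T, (l : ℝ) ^ (-(1 - 1 / Real.log y)) =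
      ∑ l ∈ T.subtype (· ∈ Nat.factoredNumbers (Ioc z y)), npow s l := by
    rw [← hs]
    symm
    refine Finset.sum_subtype_of_mem (fun l : ℕ => npow s l) ?_
    intro l hl
    obtain ⟨h1, h2⟩ := hT l hl
    refine ⟨h1, fun q hq => ?_⟩
    rw [Nat.mem_primeFactorsList h1] at hq
    rw [mem_Ioc]
    exact h2 q hq.1 hq.2
  rw [h1]
  refine (sum_le_hasSum _ (fun l _ => ?_) hsum).trans ?_
  · rw [npow_apply]; positivity
  have h2 : ∀ p ∈ (Ioc z y).filter Nat.Prime, (1 - npow s p)⁻¹ ≤ Real.exp (6 * (1 / (p : ℝ))) := by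
    intro p hp
    rw [mem_filter, mem_Ioc] at hp
    obtain ⟨⟨hzp, hpy⟩, hpp⟩ := hp
    have hp0 : (0 : ℝ) < p := by exact_mod_cast hpp.pos
    have hp7 : (7 : ℝ) ≤ p := by exact_mod_cast (show 7 ≤ p by omega)
    have h3 : npow s p ≤ 2.72 / p := by
      rw [npow_apply, hs]
      have h4 : (p : ℝ) ^ (-(1 - 1 / Real.log y)) = (p : ℝ) ^ (1 / Real.log y) / p := by
        rw [show -(1 - 1 / Real.log (y : ℝ)) = 1 / Real.log y - 1 by ring, Real.rpow_sub hp0, Real.rpow_one]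
      rw [h4]
      refine div_le_div_of_nonneg_right ?_ hp0.le
      have h5 : (p : ℝ) ^ (1 / Real.log y) ≤ (y : ℝ) ^ (1 / Real.log y) := by
        refine Real.rpow_le_rpow hp0.le (by exact_mod_cast hpy) (by positivity)
      refine h5.trans ?_
      rw [Real.rpow_def_of_pos hy0, mul_one_div_cancel (by linarith)]
      have := Real.exp_one_lt_d9
      linarith
    have h4 : 0 ≤ npow s p := by rw [npow_apply]; positivity
    have h5 : npow s p ≤ 1 / 2 := by
      refine h3.trans ?_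
      rw [div_le_iff₀ hp0]
      linarith
    have h6 := exp_neg_le (npow s p) h4 h5
    have h7 : (1 - npow s p)⁻¹ ≤ Real.exp (2 * npow s p) := by
      have h8 : (Real.exp (-(2 * npow s p)))⁻¹ = Real.exp (2 * npow s p) := by
        rw [Real.exp_neg, inv_inv]
      rw [← h8]
      exact inv_anti₀ (Real.exp_pos _) h6
    refine h7.trans (Real.exp_le_exp.2 ?_)
    have h8 : 2.72 / (p : ℝ) = 2.72 * (1 / p) := by ring
    rw [h8] at h3
    have h9 : 0 < 1 / (p : ℝ) := by positivity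
    linarith
  calc ∏ p ∈ (Ioc z y).filter Nat.Prime, (1 - npow s p)⁻¹
      ≤ ∏ p ∈ (Ioc z y).filter Nat.Prime, Real.exp (6 * (1 / (p : ℝ))) := by
        refine prod_le_prod ?_ h2
        intro p hp
        rw [mem_filter] at hp
        have := hlt hp.2
        rw [Real.norm_eq_abs] at this
        have h3 := (abs_lt.1 this).2
        exact inv_nonneg.2 (by linarith)
    _ = Real.exp (6 * ∑ p ∈ (Ioc z y).filter Nat.Prime, (1 : ℝ) / p) := by
        rw [← Real.exp_sum, mul_sum]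
    _ ≤ _ := by
        refine Real.exp_le_exp.2 (mul_le_mul_of_nonneg_left ?_ (by norm_num))
        refine sum_le_sum_of_subset_of_nonneg ?_ ?_
        · intro p hp
          rw [mem_filter, mem_Ioc] at hp
          rw [mem_filter, mem_Icc]
          exact ⟨⟨by omega, hp.1.2⟩, hp.2⟩
        · intro p _ _
          positivity

theorem tail_sum (z X : ℕ) (hz : 1 ≤ z) :
    ∑ y ∈ Ioc z X, 1 / ((y : ℝ) * √y) ≤ 2 / √z := by
  have key : ∀ X : ℕ, z ≤ X → ∑ y ∈ Ioc z X, 1 / ((y : ℝ) * √y) ≤ 2 / √z - 2 / √X := by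
    intro X hX
    induction X, hX using Nat.le_induction with
    | base => simp
    | succ X hX ih =>
      have hIoc : Ioc z (X + 1) = insert (X + 1) (Ioc z X) := by
        ext t
        simp only [mem_insert, mem_Ioc]
        omega
      rw [hIoc, sum_insert (by simp)]
      have hX0 : (0 : ℝ) < X := by exact_mod_cast (show 0 < X by omega)
      have h1 : 0 < √(X : ℝ) := Real.sqrt_pos.2 hX0
      have h2 : 0 < √((X + 1 : ℕ) : ℝ) := Real.sqrt_pos.2 (by positivity)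
      have h3 : √(X : ℝ) ≤ √((X + 1 : ℕ) : ℝ) := Real.sqrt_le_sqrt (by push_cast; linarith)
      have h4 : √(X : ℝ) ^ 2 = X := Real.sq_sqrt hX0.le
      have h5 : √((X + 1 : ℕ) : ℝ) ^ 2 = X + 1 := by
        rw [Real.sq_sqrt (by positivity)]
        push_cast
        ring
      have h6 : 1 / (((X + 1 : ℕ) : ℝ) * √((X + 1 : ℕ) : ℝ)) ≤ 2 / √(X : ℝ) - 2 / √((X + 1 : ℕ) : ℝ) := by
        obtain ⟨a, ha⟩ : ∃ a, a = √(X : ℝ) := ⟨_, rfl⟩
        obtain ⟨b, hb⟩ : ∃ b, b = √((X + 1 : ℕ) : ℝ) := ⟨_, rfl⟩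
        have h7 : ((X + 1 : ℕ) : ℝ) = b ^ 2 := by
          rw [hb, h5]
          push_cast
          ring
        rw [← ha] at h1 h3 h4 ⊢
        rw [← hb] at h2 h3 h5 ⊢
        rw [h7, div_sub_div _ _ h1.ne' h2.ne', div_le_div_iff₀ (by positivity) (by positivity)]
        have h8 : b ^ 2 - a ^ 2 = 1 := by rw [h5, h4]; ring
        have h9 : (b - a) * (b + a) = 1 := by linarith [h8, sq_sub_sq b a]
        have h10 : 0 ≤ b - a := by linarith
        -- 1 * (a * b) ≤ (2 * b - a * 2) * (b ^ 2 * b)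
        have h11 : 1 ≤ 2 * b * (b - a) := by
          have : (b - a) * (b + a) ≤ (b - a) * (2 * b) := mul_le_mul_of_nonneg_left (by linarith) h10
          linarith
        have h12 : a * b ≤ b * b := mul_le_mul_of_nonneg_right h3 h2.le
        have h13 : b * b * 1 ≤ b * b * (2 * b * (b - a)) := mul_le_mul_of_nonneg_left h11 (by positivity)
        nlinarith
      linarith
  rcases le_or_gt z X with h | h
  · have := key X h
    have h2 : 0 ≤ 2 / √(X : ℝ) := by positivity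
    linarith
  · rw [Ioc_eq_empty (by omega), sum_empty]
    positivity

theorem log_pow_le (y : ℝ) (hy : 1 ≤ y) : Real.log y ^ 9 ≤ 185794560 * √y := by
  have h0 : 0 ≤ Real.log y := Real.log_nonneg hy
  have h1 := Real.pow_div_factorial_le_exp (Real.log y / 2) (by positivity) 9
  have h2 : Real.exp (Real.log y / 2) = √y := by
    rw [Real.sqrt_eq_rpow, Real.rpow_def_of_pos (by linarith)]
    congr 1
    ring
  rw [h2, div_le_iff₀ (by positivity), div_pow] at h1
  have h3 : ((Nat.factorial 9 : ℕ) : ℝ) = 362880 := by norm_num [Nat.factorial]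
  rw [h3] at h1
  have h4 : Real.log y ^ 9 / 2 ^ 9 ≤ √y * 362880 := h1
  rw [div_le_iff₀ (by norm_num)] at h4
  nlinarith [Real.sqrt_nonneg y]

/-- one term -/
theorem term_le (m0 y l : ℕ) (hm : 1 ≤ m0) (hy : 3 ≤ y) (hl : 1 ≤ l) :
    (1 + Real.log ((m0 * (y * l) : ℕ) : ℝ)) ^ 3 / (((y * l : ℕ) : ℝ) * y) ≤
      17 * (2 + Real.log m0) ^ 3 * Real.log y ^ 3 / (y : ℝ) ^ 2 * (l : ℝ) ^ (-(1 - 1 / Real.log y)) := by
  have hy0 : (0 : ℝ) < y := by exact_mod_cast (show 0 < y by omega)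
  have hl0 : (0 : ℝ) < l := by exact_mod_cast hl
  have hm0 : (0 : ℝ) < m0 := by exact_mod_cast hm
  have hlm : 0 ≤ Real.log m0 := Real.log_natCast_nonneg _
  have hll : 0 ≤ Real.log l := Real.log_natCast_nonneg _
  have hlog : 1 ≤ Real.log y := by
    rw [Real.le_log_iff_exp_le hy0]
    have h3 : (3 : ℝ) ≤ y := by exact_mod_cast hy
    have := Real.exp_one_lt_d9
    linarith
  obtain ⟨L, hL⟩ : ∃ L, L = Real.log y := ⟨_, rfl⟩
  obtain ⟨A, hA⟩ : ∃ A, A = 2 + Real.log m0 := ⟨_, rfl⟩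
  obtain ⟨u, hu⟩ : ∃ u, u = Real.log l / L := ⟨_, rfl⟩
  rw [← hL] at hlog ⊢
  rw [← hA]
  have hL0 : 0 < L := by linarith
  have hu0 : 0 ≤ u := by rw [hu]; positivity
  have h1 : Real.log ((m0 * (y * l) : ℕ) : ℝ) = Real.log m0 + (L + Real.log l) := by
    push_cast
    rw [Real.log_mul hm0.ne' (by positivity), Real.log_mul hy0.ne' hl0.ne', hL]
  have h2 : Real.log l = u * L := by rw [hu]; field_simp
  have h3 : 1 + Real.log ((m0 * (y * l) : ℕ) : ℝ) ≤ A * L * (1 + u) := by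
    rw [h1, h2, hA]
    nlinarith [mul_nonneg hlm (by linarith : 0 ≤ L - 1), mul_nonneg (mul_nonneg hlm hL0.le) hu0,
      mul_nonneg hu0 hL0.le]
  have h4 : (1 + u) ^ 3 ≤ 17 * Real.exp u := by
    have h5 := Real.pow_div_factorial_le_exp (1 + u) (by linarith) 3
    rw [show ((Nat.factorial 3 : ℕ) : ℝ) = 6 by norm_num [Nat.factorial], div_le_iff₀ (by norm_num),
      Real.exp_add] at h5
    have h6 := Real.exp_one_lt_d9
    nlinarith [Real.exp_pos u]
  have h5 : Real.exp u = (l : ℝ) ^ (1 / L) := by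
    rw [Real.rpow_def_of_pos hl0, hu]
    congr 1
    ring
  have h6 : (l : ℝ) ^ (-(1 - 1 / L)) = (l : ℝ) ^ (1 / L) / l := by
    rw [show -(1 - 1 / L) = 1 / L - 1 by ring, Real.rpow_sub hl0, Real.rpow_one]
  rw [h6, ← h5]
  have h7 : 0 ≤ 1 + Real.log ((m0 * (y * l) : ℕ) : ℝ) := by
    have := Real.log_natCast_nonneg (m0 * (y * l))
    linarith
  have hA0 : 0 < A := by rw [hA]; linarith
  have h8 : (1 + Real.log ((m0 * (y * l) : ℕ) : ℝ)) ^ 3 ≤ A ^ 3 * L ^ 3 * (17 * Real.exp u) := by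
    calc (1 + Real.log ((m0 * (y * l) : ℕ) : ℝ)) ^ 3 ≤ (A * L * (1 + u)) ^ 3 := pow_le_pow_left₀ h7 h3 3
      _ = A ^ 3 * L ^ 3 * (1 + u) ^ 3 := by ring
      _ ≤ _ := mul_le_mul_of_nonneg_left h4 (by positivity)
  calc (1 + Real.log ((m0 * (y * l) : ℕ) : ℝ)) ^ 3 / (((y * l : ℕ) : ℝ) * y)
      ≤ A ^ 3 * L ^ 3 * (17 * Real.exp u) / (((y * l : ℕ) : ℝ) * y) := by
        exact div_le_div_of_nonneg_right h8 (by positivity)
    _ = _ := by
        push_cast
        field_simp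

open Classical in
/-- the sum over the rough numbers -/
theorem small_sum : ∃ K : ℝ, 0 < K ∧ ∀ m0 z X : ℕ, 1 ≤ m0 → 6 ≤ z →
    ∑ l ∈ (Icc 1 X).filter (Rough z), (1 + Real.log ((m0 * l : ℕ) : ℝ)) ^ 3 / (l * top z l) ≤
      K * (2 + Real.log m0) ^ 3 / √z := by
  obtain ⟨C1, hC1⟩ := Pool.Agent.Helper601.Mertens.mertens_inv
  obtain ⟨K1, hK1⟩ : ∃ K1, K1 = Real.exp (6 * C1) := ⟨_, rfl⟩
  have hK10 : 0 < K1 := by rw [hK1]; exact Real.exp_pos _
  refine ⟨17 * K1 * 185794560 * 2 + 1, by positivity, ?_⟩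
  intro m0 z X hm0 hz
  have hlm : 0 ≤ Real.log m0 := Real.log_natCast_nonneg _
  obtain ⟨A, hA⟩ : ∃ A, A = 2 + Real.log m0 := ⟨_, rfl⟩
  rw [← hA]
  have hA2 : 2 ≤ A := by rw [hA]; linarith
  have hz0 : (0 : ℝ) < z := by exact_mod_cast (show 0 < z by omega)
  have hsz : 0 < √(z : ℝ) := Real.sqrt_pos.2 hz0
  obtain ⟨g, hg⟩ : ∃ g : ℕ → ℝ, g = fun l => (1 + Real.log ((m0 * l : ℕ) : ℝ)) ^ 3 / (l * top z l) := ⟨_, rfl⟩
  have hg0 : ∀ l, 0 ≤ g l := by
    intro l
    rw [hg]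
    have := Real.log_natCast_nonneg (m0 * l)
    positivity
  have hgdef : ∑ l ∈ (Icc 1 X).filter (Rough z), (1 + Real.log ((m0 * l : ℕ) : ℝ)) ^ 3 / (l * top z l) =
      ∑ l ∈ (Icc 1 X).filter (Rough z), g l := by rw [hg]
  rw [hgdef]
  -- the term `l = 1`
  have hone : g 1 ≤ A ^ 3 / √z := by
    rw [hg]
    have h1 : z ≤ top z 1 := top_ge z 1
    have h2 : (z : ℝ) ≤ top z 1 := by exact_mod_cast h1
    have h3 : √(z : ℝ) ≤ z := by
      rw [Real.sqrt_le_left hz0.le]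
      have : (1 : ℝ) ≤ z := by exact_mod_cast (show 1 ≤ z by omega)
      nlinarith
    have h4 : (1 + Real.log ((m0 * 1 : ℕ) : ℝ)) ^ 3 ≤ A ^ 3 := by
      refine pow_le_pow_left₀ ?_ ?_ 3
      · have := Real.log_natCast_nonneg (m0 * 1)
        linarith
      · rw [mul_one, hA]
        linarith
    have h5 : 0 ≤ (1 + Real.log ((m0 * 1 : ℕ) : ℝ)) ^ 3 := by
      have := Real.log_natCast_nonneg (m0 * 1)
      positivity
    calc (1 + Real.log ((m0 * 1 : ℕ) : ℝ)) ^ 3 / (((1 : ℕ) : ℝ) * top z 1)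
        ≤ A ^ 3 / (((1 : ℕ) : ℝ) * top z 1) := div_le_div_of_nonneg_right h4 (by positivity)
      _ ≤ A ^ 3 / √z := by
          refine div_le_div_of_nonneg_left (by positivity) hsz ?_
          push_cast
          linarith
  -- split
  have hsplit : ∑ l ∈ (Icc 1 X).filter (Rough z), g l ≤ g 1 + ∑ l ∈ (Icc 2 X).filter (Rough z), g l := by
    have h1 : (Icc 1 X).filter (Rough z) ⊆ insert 1 ((Icc 2 X).filter (Rough z)) := by
      intro l hl
      rw [mem_filter, mem_Icc] at hl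
      rw [mem_insert, mem_filter, mem_Icc]
      by_cases h : l = 1
      · exact Or.inl h
      · exact Or.inr ⟨⟨by omega, hl.1.2⟩, hl.2⟩
    refine (sum_le_sum_of_subset_of_nonneg h1 (fun l _ _ => hg0 l)).trans ?_
    rw [sum_insert (by simp)]
  -- the fibres
  have hmaps : ∀ l ∈ (Icc 2 X).filter (Rough z), top z l ∈ Ioc z X := by
    intro l hl
    rw [mem_filter, mem_Icc] at hl
    obtain ⟨⟨hl2, hlX⟩, hr⟩ := hl
    obtain ⟨p, hp, hpl⟩ := Nat.exists_prime_and_dvd (show l ≠ 1 by omega)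
    rw [mem_Ioc]
    constructor
    · exact lt_of_lt_of_le (hr p hp hpl) (le_top z l p (by omega) hp hpl)
    · unfold top
      rw [sup_le_iff]
      constructor
      · rw [Finset.sup_le_iff]
        intro q hq
        exact (Nat.le_of_mem_primeFactors hq).trans hlX
      · exact (hr p hp hpl).le.trans ((Nat.le_of_dvd (by omega) hpl).trans hlX)
  rw [← sum_fiberwise_of_maps_to hmaps] at hsplit
  have hfib : ∀ y ∈ Ioc z X, ∑ l ∈ ((Icc 2 X).filter (Rough z)).filter (fun l => top z l = y), g l ≤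
      17 * K1 * 185794560 * A ^ 3 * (1 / ((y : ℝ) * √y)) := by
    intro y hy
    rw [mem_Ioc] at hy
    have hy0 : (0 : ℝ) < y := by exact_mod_cast (show 0 < y by omega)
    have hy1 : (1 : ℝ) ≤ y := by exact_mod_cast (show 1 ≤ y by omega)
    have hlog : 1 ≤ Real.log y := by
      rw [Real.le_log_iff_exp_le hy0]
      have h3 : (7 : ℝ) ≤ y := by exact_mod_cast (show 7 ≤ y by omega)
      have := Real.exp_one_lt_d9
      linarith
    obtain ⟨F, hF⟩ : ∃ F : Finset ℕ, F = ((Icc 2 X).filter (Rough z)).filter (fun l => top z l = y) := ⟨_, rfl⟩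
    rw [← hF]
    have hmem : ∀ l ∈ F, 2 ≤ l ∧ Rough z l ∧ top z l = y := by
      intro l hl
      rw [hF, mem_filter, mem_filter, mem_Icc] at hl
      exact ⟨hl.1.1.1, hl.1.2, hl.2⟩
    have hyd : ∀ l ∈ F, y ∣ l := by
      intro l hl
      obtain ⟨h1, h2, h3⟩ := hmem l hl
      have hne : l.primeFactors.Nonempty := Nat.nonempty_primeFactors.2 (by omega)
      obtain ⟨p, hp, hpe⟩ := Finset.exists_mem_eq_sup l.primeFactors hne id
      have h4 : l.primeFactors.sup id = y := by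
        unfold top at h3
        rcases le_total (l.primeFactors.sup id) z with h5 | h5
        · rw [sup_eq_right.2 h5] at h3
          omega
        · rw [sup_eq_left.2 h5] at h3
          exact h3
      rw [h4] at hpe
      rw [hpe]
      exact Nat.dvd_of_mem_primeFactors hp
    have hinj : Set.InjOn (fun l => l / y) (F : Set ℕ) := by
      intro l hl l' hl' h
      obtain ⟨c, hc⟩ := hyd l hl
      obtain ⟨c', hc'⟩ := hyd l' hl'
      have hyp : 0 < y := by omega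
      simp only [hc, hc', Nat.mul_div_cancel_left _ hyp] at h
      rw [hc, hc', h]
    have hterm : ∀ l ∈ F, g l ≤ 17 * A ^ 3 * Real.log y ^ 3 / (y : ℝ) ^ 2 *
        ((l / y : ℕ) : ℝ) ^ (-(1 - 1 / Real.log y)) := by
      intro l hl
      obtain ⟨h1, h2, h3⟩ := hmem l hl
      obtain ⟨c, hc⟩ := hyd l hl
      have hyp : 0 < y := by omega
      have hc1 : 1 ≤ c := by
        rcases Nat.eq_zero_or_pos c with h | h
        · rw [h, mul_zero] at hc; omega
        · exact h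
      have h4 : l / y = c := by rw [hc, Nat.mul_div_cancel_left _ hyp]
      rw [h4, hg]
      simp only
      rw [h3, hc, hA]
      exact term_le m0 y c hm0 (by omega) hc1
    refine (sum_le_sum hterm).trans ?_
    rw [← mul_sum]
    have h5 : ∑ l ∈ F, ((l / y : ℕ) : ℝ) ^ (-(1 - 1 / Real.log y)) =
        ∑ c ∈ F.image (fun l => l / y), (c : ℝ) ^ (-(1 - 1 / Real.log y)) := by
      rw [sum_image hinj]
    rw [h5]
    have h6 := euler y z hz hy.1 (F.image (fun l => l / y)) (by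
      intro c hc
      rw [mem_image] at hc
      obtain ⟨l, hl, rfl⟩ := hc
      obtain ⟨h1, h2, h3⟩ := hmem l hl
      obtain ⟨c, hc⟩ := hyd l hl
      have hyp : 0 < y := by omega
      have h4 : l / y = c := by rw [hc, Nat.mul_div_cancel_left _ hyp]
      rw [h4]
      have hcl : c ∣ l := ⟨y, by rw [hc, mul_comm]⟩
      refine ⟨?_, ?_⟩
      · rintro rfl
        rw [mul_zero] at hc
        omega
      · intro q hq hqc
        refine ⟨h2 q hq (hqc.trans hcl), ?_⟩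
        rw [← h3]
        exact le_top z l q (by omega) hq (hqc.trans hcl))
    have h7 : Real.exp (6 * ∑ p ∈ (Icc 1 y).filter Nat.Prime, (1 : ℝ) / p) ≤ K1 * Real.log y ^ 6 := by
      have h8 := (abs_le.1 (hC1 y (by omega))).2
      have h9 : Real.log y ^ 6 = Real.exp (6 * Real.log (Real.log y)) := by
        rw [mul_comm, Real.exp_mul, Real.exp_log (by linarith)]
        exact (Real.rpow_natCast (Real.log y) 6).symm
      rw [hK1, h9, ← Real.exp_add]
      refine Real.exp_le_exp.2 ?_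
      linarith
    have h8 : 17 * A ^ 3 * Real.log y ^ 3 / (y : ℝ) ^ 2 *
        ∑ c ∈ F.image (fun l => l / y), (c : ℝ) ^ (-(1 - 1 / Real.log y)) ≤
        17 * A ^ 3 * Real.log y ^ 3 / (y : ℝ) ^ 2 * (K1 * Real.log y ^ 6) :=
      mul_le_mul_of_nonneg_left (h6.trans h7) (by positivity)
    refine h8.trans ?_
    have h9 := log_pow_le y hy1
    have h10 : (y : ℝ) = √y * √y := (Real.mul_self_sqrt hy0.le).symm
    have hsy : 0 < √(y : ℝ) := Real.sqrt_pos.2 hy0
    calc 17 * A ^ 3 * Real.log y ^ 3 / (y : ℝ) ^ 2 * (K1 * Real.log y ^ 6)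
        = 17 * K1 * A ^ 3 / (y : ℝ) ^ 2 * Real.log y ^ 9 := by ring
      _ ≤ 17 * K1 * A ^ 3 / (y : ℝ) ^ 2 * (185794560 * √y) :=
          mul_le_mul_of_nonneg_left h9 (by positivity)
      _ = 17 * K1 * 185794560 * A ^ 3 * (1 / ((y : ℝ) * √y)) := by
          have h11 : √(y : ℝ) / (y : ℝ) ^ 2 = 1 / ((y : ℝ) * √y) := by
            rw [div_eq_div_iff (by positivity) (by positivity)]
            nlinarith [Real.mul_self_sqrt hy0.le]
          rw [show 17 * K1 * A ^ 3 / (y : ℝ) ^ 2 * (185794560 * √y) =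
            17 * K1 * 185794560 * A ^ 3 * (√y / (y : ℝ) ^ 2) by ring, h11]
  refine hsplit.trans ((add_le_add hone (sum_le_sum hfib)).trans ?_)
  rw [← mul_sum]
  have h1 := tail_sum z X (by omega)
  have h2 : 17 * K1 * 185794560 * A ^ 3 * ∑ y ∈ Ioc z X, 1 / ((y : ℝ) * √y) ≤
      17 * K1 * 185794560 * A ^ 3 * (2 / √z) := mul_le_mul_of_nonneg_left h1 (by positivity)
  calc A ^ 3 / √z + 17 * K1 * 185794560 * A ^ 3 * ∑ y ∈ Ioc z X, 1 / ((y : ℝ) * √y)
      ≤ A ^ 3 / √z + 17 * K1 * 185794560 * A ^ 3 * (2 / √z) := by linarith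
    _ = (17 * K1 * 185794560 * 2 + 1) * A ^ 3 / √z := by ring

open Classical in
/-- rough numbers in the zero set are rare -/
theorem small (Z : ℕ → Prop) (C : ℝ) (hC : 0 ≤ C) (hF : Few Z C) (m0 : ℕ) (hm0 : 1 ≤ m0) (h0 : ¬ Z m0) :
    ∃ D : ℝ, 0 ≤ D ∧ ∀ z X : ℕ, m0 ≤ z → 6 ≤ z →
      (#{k ∈ Icc 1 X | Rough z k ∧ Z (m0 * k)} : ℝ) ≤ D * X / √z := by
  obtain ⟨K, hK, hsum⟩ := small_sum
  have hlm : 0 ≤ Real.log m0 := Real.log_natCast_nonneg _
  refine ⟨C * (K * (2 + Real.log m0) ^ 3), by positivity, ?_⟩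
  intro z X hz hz6
  refine (count_le Z C hC hF m0 z X hm0 h0 hz (by omega)).trans ?_
  have h1 := hsum m0 z X hm0 hz6
  have h2 : ∑ l ∈ (Icc 1 X).filter (Rough z), C * (1 + Real.log ((m0 * l : ℕ) : ℝ)) ^ 3 / (l * top z l) =
      C * ∑ l ∈ (Icc 1 X).filter (Rough z), (1 + Real.log ((m0 * l : ℕ) : ℝ)) ^ 3 / (l * top z l) := by
    rw [mul_sum]
    exact sum_congr rfl fun l _ => by ring
  rw [h2]
  calc (X : ℝ) * (C * ∑ l ∈ (Icc 1 X).filter (Rough z), (1 + Real.log ((m0 * l : ℕ) : ℝ)) ^ 3 / (l * top z l))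
      ≤ (X : ℝ) * (C * (K * (2 + Real.log m0) ^ 3 / √z)) := by
        exact mul_le_mul_of_nonneg_left (mul_le_mul_of_nonneg_left h1 hC) (Nat.cast_nonneg _)
    _ = _ := by ring

end Pool.Agent.H48.KV
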