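import Mathlib
import Pool.Graph.R_seed8.Helper601.Mertens
import Pool.Agent.H48.KV.Small

/-! # Arguments at which several linear forms have no small prime factors -/

set_option autoImplicit false

namespace Pool.Agent.H48.KV

open Finset

/-- the elements of `s` with the property `P` -/
noncomputable def fil (P : ℕ → Prop) (s : Finset ℕ) : Finset ℕ := @filter ℕ P (Classical.decPred P) s

theorem mem_fil (P : ℕ → Prop) (s : Finset ℕ) (x : ℕ) : x ∈ fil P s ↔ x ∈ s ∧ P x := by
  unfold fil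
  exact @mem_filter ℕ P (Classical.decPred P) s x

theorem fil_eq (P : ℕ → Prop) (i : DecidablePred P) (s : Finset ℕ) : @filter ℕ P i s = fil P s := by
  ext x
  rw [mem_fil, mem_filter]

theorem card_imp (s : Finset ℕ) (P Q : ℕ → Prop) (i : DecidablePred P) (j : DecidablePred Q)
    (h : ∀ x ∈ s, P x → Q x) : ((@filter ℕ P i s).card : ℝ) ≤ ((@filter ℕ Q j s).card : ℝ) := by
  refine Nat.cast_le.2 (card_le_card ?_)
  intro x hx
  rw [mem_filter] at hx ⊢
  exact ⟨hx.1, h x hx.1 hx.2⟩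

/-- the number of the `x < M` with the property `P` -/
noncomputable def cnt (M : ℕ) (P : ℕ → Prop) : ℕ := (fil P (range M)).card

theorem crt (M p : ℕ) (hcop : M.Coprime p) (hM : 0 < M) (hp : 0 < p) (A B : ℕ → Prop)
    (hA : ∀ x, A (x % M) ↔ A x) (hB : ∀ x, B (x % p) ↔ B x) :
    cnt (M * p) (fun x => A x ∧ B x) = cnt M A * cnt p B := by
  unfold cnt
  rw [← card_product]
  refine card_bij (fun x _ => (x % M, x % p)) ?_ ?_ ?_
  · intro x hx
    rw [mem_fil, mem_range] at hx
    rw [mem_product, mem_fil, mem_fil, mem_range, mem_range]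
    exact ⟨⟨Nat.mod_lt _ hM, (hA x).2 hx.2.1⟩, Nat.mod_lt _ hp, (hB x).2 hx.2.2⟩
  · intro x hx y hy h
    rw [mem_fil, mem_range] at hx hy
    rw [Prod.mk.injEq] at h
    have h1 : x ≡ y [MOD M * p] := (Nat.modEq_and_modEq_iff_modEq_mul hcop).1 ⟨h.1, h.2⟩
    exact Nat.ModEq.eq_of_lt_of_lt h1 hx.1 hy.1
  · rintro ⟨a, b⟩ hab
    rw [mem_product, mem_fil, mem_fil, mem_range, mem_range] at hab
    obtain ⟨⟨ha, hAa⟩, hb, hBb⟩ := hab
    simp only at ha hAa hb hBb
    obtain ⟨k, hk1, hk2⟩ := Nat.chineseRemainder hcop a b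
    have h1 : (k % (M * p)) % M = a := by
      rw [Nat.mod_mul_right_mod]
      have := hk1
      unfold Nat.ModEq at this
      rw [this, Nat.mod_eq_of_lt ha]
    have h2 : (k % (M * p)) % p = b := by
      rw [Nat.mod_mul_left_mod]
      have := hk2
      unfold Nat.ModEq at this
      rw [this, Nat.mod_eq_of_lt hb]
    refine ⟨k % (M * p), ?_, ?_⟩
    · rw [mem_fil, mem_range]
      refine ⟨Nat.mod_lt _ (Nat.mul_pos hM hp), ?_, ?_⟩
      · rw [← hA, h1]
        exact hAa
      · rw [← hB, h2]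
        exact hBb
    · rw [h1, h2]

theorem crt_prod (B : ℕ → ℕ → Prop) (s : Finset ℕ) (hs : ∀ p ∈ s, p.Prime)
    (hB : ∀ p ∈ s, ∀ x, B p (x % p) ↔ B p x) :
    cnt (∏ p ∈ s, p) (fun x => ∀ p ∈ s, B p x) = ∏ p ∈ s, cnt p (B p) := by
  induction s using Finset.induction_on with
  | empty => simp [cnt, fil]
  | insert q s hq ih =>
    have hs' : ∀ p ∈ s, p.Prime := fun p hp => hs p (mem_insert_of_mem hp)
    have hB' : ∀ p ∈ s, ∀ x, B p (x % p) ↔ B p x := fun p hp => hB p (mem_insert_of_mem hp)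
    have hqp : q.Prime := hs q (mem_insert_self _ _)
    rw [prod_insert hq, prod_insert hq, ← ih hs' hB', mul_comm q, mul_comm (cnt q (B q))]
    have hcop : (∏ p ∈ s, p).Coprime q := by
      refine Nat.Coprime.prod_left fun p hp => ?_
      rw [Nat.coprime_primes (hs' p hp) hqp]
      rintro rfl
      exact hq hp
    have h1 := crt (∏ p ∈ s, p) q hcop (prod_pos fun p hp => (hs' p hp).pos) hqp.pos
      (fun x => ∀ p ∈ s, B p x) (B q) (by
        intro x
        refine forall₂_congr fun p hp => ?_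
        rw [← hB' p hp, Nat.mod_mod_of_dvd _ (dvd_prod_of_mem _ hp), hB' p hp])
        (hB q (mem_insert_self _ _))
    rw [← h1]
    have h2 : (fun x => ∀ p ∈ insert q s, B p x) = (fun x => (∀ p ∈ s, B p x) ∧ B q x) := by
      funext x
      apply propext
      rw [forall_mem_insert]
      tauto
    rw [h2]

theorem period (M : ℕ) (P : ℕ → Prop) (hP : ∀ x, P (x % M) ↔ P x) (q : ℕ) :
    (fil P (Ico 1 (1 + q * M))).card = q * cnt M P := by
  induction q with
  | zero => simp [fil]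
  | succ q ih =>
    have h1 : Ico 1 (1 + (q + 1) * M) = Ico 1 (1 + q * M) ∪ Ico (1 + q * M) (1 + q * M + M) := by
      ext t
      rw [mem_union, mem_Ico, mem_Ico, mem_Ico]
      have : (q + 1) * M = q * M + M := by ring
      rw [this]
      omega
    have h2 : Disjoint (fil P (Ico 1 (1 + q * M))) (fil P (Ico (1 + q * M) (1 + q * M + M))) := by
      rw [disjoint_left]
      intro t ht ht'
      rw [mem_fil, mem_Ico] at ht ht'
      omega
    have h5 : fil P (Ico 1 (1 + (q + 1) * M)) =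
        fil P (Ico 1 (1 + q * M)) ∪ fil P (Ico (1 + q * M) (1 + q * M + M)) := by
      rw [h1]
      ext x
      rw [mem_union, mem_fil, mem_fil, mem_fil, mem_union]
      tauto
    have h3 : Function.Periodic P M := by
      intro x
      apply propext
      rw [← hP (x + M), ← hP x, Nat.add_mod_right]
    rw [h5, card_union_of_disjoint h2, ih]
    have h4 := @Nat.filter_Ico_card_eq_of_periodic (1 + q * M) M P (Classical.decPred P) h3
    rw [@Nat.count_eq_card_filter_range P (Classical.decPred P) M, fil_eq, fil_eq] at h4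
    rw [h4]
    unfold cnt
    ring

theorem exp_neg_le2 (u : ℝ) (h0 : 0 ≤ u) (h1 : u ≤ 1 / 2) : Real.exp (-(u + 2 * u ^ 2)) ≤ 1 - u := by
  have h2 := Real.quadratic_le_exp_of_nonneg (show 0 ≤ u + 2 * u ^ 2 by positivity)
  rw [Real.exp_neg, inv_le_iff_one_le_mul₀ (Real.exp_pos _)]
  have h3 : 1 ≤ (1 - u) * (1 + (u + 2 * u ^ 2) + (u + 2 * u ^ 2) ^ 2 / 2) := by
    have e : (1 - u) * (1 + (u + 2 * u ^ 2) + (u + 2 * u ^ 2) ^ 2 / 2) =
        1 + u ^ 2 * (3 / 2 - u / 2 - 2 * u ^ 3) := by ring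
    rw [e]
    have h4 : u ^ 3 ≤ 1 / 8 := by
      calc u ^ 3 ≤ (1 / 2) ^ 3 := pow_le_pow_left₀ h0 h1 3
        _ = 1 / 8 := by norm_num
    have h5 : 0 ≤ 3 / 2 - u / 2 - 2 * u ^ 3 := by linarith
    have := mul_nonneg (sq_nonneg u) h5
    linarith
  exact h3.trans (mul_le_mul_of_nonneg_left h2 (by linarith))

theorem sum_sq_le (z : ℕ) : ∑ n ∈ Icc 1 z, (1 : ℝ) / (n : ℝ) ^ 2 ≤ 2 := by
  have key : ∀ z : ℕ, 1 ≤ z → ∑ n ∈ Icc 1 z, (1 : ℝ) / (n : ℝ) ^ 2 ≤ 2 - 1 / z := by
    intro z hz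
    induction z, hz using Nat.le_induction with
    | base => norm_num
    | succ z hz ih =>
      have hI : Icc 1 (z + 1) = insert (z + 1) (Icc 1 z) := by
        ext t
        simp only [mem_insert, mem_Icc]
        omega
      rw [hI, sum_insert (by simp)]
      have hz0 : (0 : ℝ) < z := by exact_mod_cast hz
      have h1 : (1 : ℝ) / ((z + 1 : ℕ) : ℝ) ^ 2 ≤ 1 / z - 1 / ((z + 1 : ℕ) : ℝ) := by
        push_cast
        rw [div_sub_div _ _ hz0.ne' (by positivity), div_le_div_iff₀ (by positivity) (by positivity)]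
        nlinarith
      linarith
  rcases Nat.eq_zero_or_pos z with h | h
  · subst h
    simp
  · have h1 := key z h
    have h2 : (0 : ℝ) ≤ 1 / z := by positivity
    linarith

open Classical in
/-- the number of the `x ≤ X` at which `r` linear forms are free of prime factors `≤ z` -/
theorem sift (r : ℕ) : ∃ c : ℝ, 0 < c ∧ ∀ z : ℕ, 3 ≤ z → ∀ b e : Fin r → ℕ,
    (∀ i, Nat.Coprime (b i) (e i)) → (∀ p : ℕ, p.Prime → p ≤ 2 * r → ∀ i, p ∣ e i) →
    ∃ X0 : ℕ, ∀ X : ℕ, X0 ≤ X →
      c * X / Real.log z ^ r ≤ (#{x ∈ Icc 1 X | ∀ i, Rough z (b i + e i * x)} : ℝ) := by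
  obtain ⟨C1, hC1⟩ := Pool.Agent.Helper601.Mertens.mertens_inv
  refine ⟨Real.exp (-(r * C1 + 4 * r ^ 2)) / 2, by positivity, ?_⟩
  intro z hz b e hcop hsmall
  obtain ⟨s, hs⟩ : ∃ s : Finset ℕ, s = (Ioc (2 * r) z).filter Nat.Prime := ⟨_, rfl⟩
  have hsp : ∀ p ∈ s, p.Prime := by
    intro p hp
    rw [hs, mem_filter] at hp
    exact hp.2
  obtain ⟨M, hM⟩ : ∃ M : ℕ, M = ∏ p ∈ s, p := ⟨_, rfl⟩
  have hM0 : 0 < M := by
    rw [hM]
    exact prod_pos fun p hp => (hsp p hp).pos
  obtain ⟨B, hBd⟩ : ∃ B : ℕ → ℕ → Prop, B = fun p x => ∀ i, ¬ p ∣ b i + e i * x := ⟨_, rfl⟩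
  have hB : ∀ p x, B p (x % p) ↔ B p x := by
    intro p x
    rw [hBd]
    refine forall_congr' fun i => not_congr ?_
    have h : b i + e i * (x % p) ≡ b i + e i * x [MOD p] :=
      Nat.ModEq.add_left _ (Nat.ModEq.mul_left _ (Nat.mod_modEq x p))
    exact h.dvd_iff dvd_rfl
  refine ⟨M, fun X hX => ?_⟩
  -- reduction to the period
  have h1 : (fil (fun x => ∀ p ∈ s, B p x) (Ico 1 (1 + X / M * M))).card ≤
      #{x ∈ Icc 1 X | ∀ i, Rough z (b i + e i * x)} := by
    refine card_le_card ?_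
    intro x hx
    rw [mem_fil, mem_Ico] at hx
    obtain ⟨⟨hx1, hx2⟩, hx3⟩ := hx
    have h3 : X / M * M ≤ X := Nat.div_mul_le_self X M
    rw [mem_filter, mem_Icc]
    refine ⟨⟨hx1, by omega⟩, fun i p hp hpd => ?_⟩
    by_contra hcon
    have hpz : p ≤ z := by omega
    rcases le_or_gt p (2 * r) with h | h
    · have h4 := hsmall p hp h i
      have h5 : p ∣ b i := (Nat.dvd_add_left (h4.mul_right x)).1 hpd
      exact hp.one_lt.ne' (Nat.dvd_one.1 ((hcop i) ▸ Nat.dvd_gcd h5 h4))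
    · have h4 : p ∈ s := by
        rw [hs, mem_filter, mem_Ioc]
        exact ⟨⟨h, hpz⟩, hp⟩
      have h5 := hx3 p h4
      rw [hBd] at h5
      exact h5 i hpd
  have h2 := period M (fun x => ∀ p ∈ s, B p x) (by
    intro x
    refine forall₂_congr fun p hp => ?_
    rw [← hB p (x % M), Nat.mod_mod_of_dvd _ (hM ▸ dvd_prod_of_mem _ hp), hB p]) (X / M)
  have h3 := crt_prod B s hsp (fun p _ => hB p)
  rw [← hM] at h3
  -- the local counts
  have h4 : ∀ p ∈ s, (p : ℝ) * Real.exp (-((r : ℝ) / p + 2 * ((r : ℝ) / p) ^ 2)) ≤ (cnt p (B p) : ℝ) := by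
    intro p hp
    have hpp := hsp p hp
    have hpr : 2 * r < p := by
      rw [hs, mem_filter, mem_Ioc] at hp
      exact hp.1.1
    have hp0 : (0 : ℝ) < p := by exact_mod_cast hpp.pos
    have h5 : p ≤ cnt p (B p) + r := by
      have h6 : cnt p (B p) + (fil (fun x => ¬ B p x) (range p)).card = p := by
        unfold cnt
        have h20 : Disjoint (fil (B p) (range p)) (fil (fun x => ¬ B p x) (range p)) := by
          rw [disjoint_left]
          intro t ht ht'
          rw [mem_fil] at ht ht'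
          exact ht'.2 ht.2
        rw [← card_union_of_disjoint h20]
        have h21 : fil (B p) (range p) ∪ fil (fun x => ¬ B p x) (range p) = range p := by
          ext t
          rw [mem_union, mem_fil, mem_fil]
          tauto
        rw [h21, card_range]
      have h7 : (fil (fun x => ¬ B p x) (range p)).card ≤ r := by
        have h8 : fil (fun x => ¬ B p x) (range p) ⊆
            (univ : Finset (Fin r)).biUnion (fun i => (range p).filter (fun x => p ∣ b i + e i * x)) := by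
          intro x hx
          rw [mem_fil, hBd] at hx
          obtain ⟨hx1, hx2⟩ := hx
          push Not at hx2
          obtain ⟨i, hi⟩ := hx2
          rw [mem_biUnion]
          exact ⟨i, mem_univ _, by rw [mem_filter]; exact ⟨hx1, hi⟩⟩
        refine (card_le_card h8).trans (card_biUnion_le.trans ?_)
        refine (sum_le_card_nsmul _ _ 1 ?_).trans (by simp)
        intro i _
        rw [card_le_one]
        intro x hx y hy
        rw [mem_filter, mem_range] at hx hy
        by_cases hpe : p ∣ e i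
        · exfalso
          have h9 : p ∣ b i := (Nat.dvd_add_left (hpe.mul_right x)).1 hx.2
          exact hpp.one_lt.ne' (Nat.dvd_one.1 ((hcop i) ▸ Nat.dvd_gcd h9 hpe))
        · have h9 : b i + e i * x ≡ b i + e i * y [MOD p] :=
            ((Nat.modEq_zero_iff_dvd).2 hx.2).trans ((Nat.modEq_zero_iff_dvd).2 hy.2).symm
          have h10 : e i * x ≡ e i * y [MOD p] := Nat.ModEq.add_left_cancel' _ h9
          have h11 : x ≡ y [MOD p] := Nat.ModEq.cancel_left_of_coprime
            ((Nat.Prime.coprime_iff_not_dvd hpp).2 hpe) h10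
          exact Nat.ModEq.eq_of_lt_of_lt h11 hx.1 hy.1
      omega
    have h6 : (p : ℝ) - r ≤ (cnt p (B p) : ℝ) := by
      have : (p : ℝ) ≤ (cnt p (B p) : ℝ) + r := by exact_mod_cast h5
      linarith
    refine le_trans ?_ h6
    have h7 := exp_neg_le2 ((r : ℝ) / p) (by positivity) (by
      rw [div_le_iff₀ hp0]
      have : (2 * r : ℝ) ≤ p := by exact_mod_cast hpr.le
      linarith)
    calc (p : ℝ) * Real.exp (-((r : ℝ) / p + 2 * ((r : ℝ) / p) ^ 2)) ≤ p * (1 - r / p) :=
          mul_le_mul_of_nonneg_left h7 hp0.le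
      _ = p - r := by field_simp
  have h5 : (M : ℝ) * Real.exp (-(r * ∑ p ∈ (Icc 1 z).filter Nat.Prime, (1 : ℝ) / p + 4 * r ^ 2)) ≤
      (cnt M (fun x => ∀ p ∈ s, B p x) : ℝ) := by
    rw [h3, hM]
    push_cast
    refine le_trans ?_ (prod_le_prod (fun p _ => by positivity) h4)
    rw [prod_mul_distrib, ← Real.exp_sum]
    refine mul_le_mul_of_nonneg_left (Real.exp_le_exp.2 ?_) (prod_nonneg fun p _ => Nat.cast_nonneg _)
    rw [sum_neg_distrib, neg_le_neg_iff]
    have h6 : ∑ p ∈ s, ((r : ℝ) / p + 2 * ((r : ℝ) / p) ^ 2) =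
        r * ∑ p ∈ s, (1 : ℝ) / p + 2 * r ^ 2 * ∑ p ∈ s, (1 : ℝ) / (p : ℝ) ^ 2 := by
      rw [sum_add_distrib, mul_sum, mul_sum]
      congr 1
      · exact sum_congr rfl fun p _ => by ring
      · exact sum_congr rfl fun p _ => by ring
    rw [h6]
    have hss : s ⊆ (Icc 1 z).filter Nat.Prime := by
      intro p hp
      rw [hs, mem_filter, mem_Ioc] at hp
      rw [mem_filter, mem_Icc]
      exact ⟨⟨hp.2.pos, hp.1.2⟩, hp.2⟩
    refine add_le_add (mul_le_mul_of_nonneg_left
      (sum_le_sum_of_subset_of_nonneg hss (fun p _ _ => by positivity)) (by positivity)) ?_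
    have h8 : ∑ p ∈ s, (1 : ℝ) / (p : ℝ) ^ 2 ≤ 2 :=
      (sum_le_sum_of_subset_of_nonneg (hss.trans (filter_subset _ _)) (fun p _ _ => by positivity)).trans
        (sum_sq_le z)
    have h9 : (0 : ℝ) ≤ (r : ℝ) ^ 2 := by positivity
    nlinarith
  have h6 : (X : ℝ) / (2 * M) ≤ ((X / M : ℕ) : ℝ) := by
    have hMr : (0 : ℝ) < M := by exact_mod_cast hM0
    have h7 : 1 ≤ X / M := (Nat.one_le_div_iff hM0).2 hX
    have h8 : X < (X / M + 1) * M := by
      have := Nat.lt_div_mul_add (a := X) hM0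
      nlinarith
    have h9 : (X : ℝ) < ((X / M : ℕ) + 1) * M := by exact_mod_cast h8
    have h10 : (1 : ℝ) ≤ ((X / M : ℕ) : ℝ) := by exact_mod_cast h7
    rw [div_le_iff₀ (by positivity)]
    nlinarith
  have h7 : (((X / M) * cnt M (fun x => ∀ p ∈ s, B p x) : ℕ) : ℝ) ≤
      (#{x ∈ Icc 1 X | ∀ i, Rough z (b i + e i * x)} : ℝ) := by
    rw [← h2]
    exact_mod_cast h1
  refine le_trans ?_ h7
  push_cast
  have hMr : (0 : ℝ) < M := by exact_mod_cast hM0
  have hlogz : 0 < Real.log z := Real.log_pos (by exact_mod_cast (show 1 < z by omega))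
  calc Real.exp (-(r * C1 + 4 * r ^ 2)) / 2 * X / Real.log z ^ r
      = (X : ℝ) / (2 * M) * (M * (Real.exp (-(r * C1 + 4 * r ^ 2)) / Real.log z ^ r)) := by
        field_simp
    _ ≤ (X : ℝ) / (2 * M) *
          (M * Real.exp (-(r * ∑ p ∈ (Icc 1 z).filter Nat.Prime, (1 : ℝ) / p + 4 * r ^ 2))) := by
        refine mul_le_mul_of_nonneg_left (mul_le_mul_of_nonneg_left ?_ hMr.le) (by positivity)
        have h8 := (abs_le.1 (hC1 z hz)).2
        have h9 : Real.log z ^ r = Real.exp (r * Real.log (Real.log z)) := by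
          rw [mul_comm (r : ℝ), Real.exp_mul, Real.exp_log hlogz, ← Real.rpow_natCast]
        rw [h9, ← Real.exp_sub]
        refine Real.exp_le_exp.2 ?_
        have h10 : (r : ℝ) * (∑ p ∈ (Icc 1 z).filter Nat.Prime, (1 : ℝ) / p) ≤
            r * (Real.log (Real.log z) + C1) := mul_le_mul_of_nonneg_left (by linarith) (by positivity)
        nlinarith
    _ ≤ ((X / M : ℕ) : ℝ) * (cnt M (fun x => ∀ p ∈ s, B p x) : ℝ) := by
        exact mul_le_mul h6 h5 (by positivity) (Nat.cast_nonneg _)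

end Pool.Agent.H48.KV
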