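import Mathlib
import Pool.Agent.H48.KV.Sift

/-! # Positive proportions outside of a zero set with few bad primes -/

set_option autoImplicit false

namespace Pool.Agent.H48.KV

open Finset Filter Topology

theorem log_small (n : ℕ) (ε : ℝ) (hε : 0 < ε) : ∀ᶠ z : ℕ in atTop, Real.log z ^ n / √z ≤ ε := by
  have h1 := Real.tendsto_pow_log_div_mul_add_atTop 1 0 n one_ne_zero
  have h2 := h1.comp (Real.tendsto_sqrt_atTop.comp tendsto_natCast_atTop_atTop)
  have h3 : ∀ᶠ z : ℕ in atTop, Real.log (√(z : ℝ)) ^ n / √z < ε / 2 ^ n := by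
    have h4 := h2.eventually (gt_mem_nhds (show (0 : ℝ) < ε / 2 ^ n by positivity))
    filter_upwards [h4] with z hz
    simpa using hz
  filter_upwards [h3] with z hz
  have h5 : Real.log (√(z : ℝ)) = Real.log z / 2 := Real.log_sqrt (Nat.cast_nonneg z)
  rw [h5, div_pow, div_div, mul_comm, ← div_div] at hz
  have h6 := (div_lt_div_iff_of_pos_right (show (0 : ℝ) < 2 ^ n by positivity)).1 hz
  exact h6.le

open Classical in
/-- several linear forms -/
theorem good_forms (Z : ℕ → Prop) (C : ℝ) (hC : 0 ≤ C) (hF : Few Z C) (r : ℕ) (a b e : Fin r → ℕ)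
    (ha : ∀ i, 1 ≤ a i) (hZ : ∀ i, ¬ Z (a i)) (he : ∀ i, 0 < e i) (hcop : ∀ i, Nat.Coprime (b i) (e i))
    (hsmall : ∀ p : ℕ, p.Prime → p ≤ 2 * r → ∀ i, p ∣ e i) :
    ∃ δ : ℝ, 0 < δ ∧ ∃ X0 : ℕ, ∀ X : ℕ, X0 ≤ X →
      δ * X ≤ (#{x ∈ Icc 1 X | ∀ i, ¬ Z (a i * (b i + e i * x))} : ℝ) := by
  obtain ⟨c, hc, hsift⟩ := sift r
  choose D hD0 hD using fun i => small Z C hC hF (a i) (ha i) (hZ i)
  obtain ⟨S, hS⟩ : ∃ S : ℝ, S = 1 + ∑ i, D i * (b i + e i) := ⟨_, rfl⟩
  have hsum0 : 0 ≤ ∑ i, D i * ((b i : ℝ) + e i) := sum_nonneg fun i _ => mul_nonneg (hD0 i) (by positivity)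
  have hS0 : 0 < S := by rw [hS]; linarith
  obtain ⟨A, hA⟩ : ∃ A : ℕ, A = ∑ i, a i := ⟨_, rfl⟩
  have haA : ∀ i, a i ≤ A := by
    intro i
    rw [hA]
    exact single_le_sum (fun j _ => Nat.zero_le (a j)) (mem_univ i)
  obtain ⟨z, hz1, hz2⟩ := ((log_small r (c / (2 * S)) (by positivity)).and
    (eventually_ge_atTop (A + 6))).exists
  have hz0 : (0 : ℝ) < z := by exact_mod_cast (show 0 < z by omega)
  have hsz : 0 < √(z : ℝ) := Real.sqrt_pos.2 hz0
  have hlogz : 0 < Real.log z := Real.log_pos (by exact_mod_cast (show 1 < z by omega))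
  obtain ⟨X0, hX0⟩ := hsift z (by omega) b e hcop hsmall
  refine ⟨c / (2 * Real.log z ^ r), by positivity, max X0 1, fun X hX => ?_⟩
  have hXX0 : X0 ≤ X := (le_max_left _ _).trans hX
  have hX1 : 1 ≤ X := (le_max_right _ _).trans hX
  have hX1r : (1 : ℝ) ≤ X := by exact_mod_cast hX1
  have h1 := hX0 X hXX0
  have h2 : (Icc 1 X).filter (fun x => ∀ i, Rough z (b i + e i * x)) ⊆
      (Icc 1 X).filter (fun x => ∀ i, ¬ Z (a i * (b i + e i * x))) ∪
      (univ : Finset (Fin r)).biUnion (fun i => (Icc 1 X).filter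
        (fun x => Rough z (b i + e i * x) ∧ Z (a i * (b i + e i * x)))) := by
    intro x hx
    rw [mem_filter] at hx
    rw [mem_union, mem_filter, mem_biUnion]
    by_cases h : ∀ i, ¬ Z (a i * (b i + e i * x))
    · exact Or.inl ⟨hx.1, h⟩
    · push Not at h
      obtain ⟨i, hi⟩ := h
      exact Or.inr ⟨i, mem_univ _, by rw [mem_filter]; exact ⟨hx.1, hx.2 i, hi⟩⟩
  have h3 : ∀ i, (#((Icc 1 X).filter
      (fun x => Rough z (b i + e i * x) ∧ Z (a i * (b i + e i * x)))) : ℝ) ≤ D i * (b i + e i) * X / √z := by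
    intro i
    have h4 := hD i z (b i + e i * X) (by have := haA i; omega) (by omega)
    have h5 : #((Icc 1 X).filter (fun x => Rough z (b i + e i * x) ∧ Z (a i * (b i + e i * x)))) ≤
        #{k ∈ Icc 1 (b i + e i * X) | Rough z k ∧ Z (a i * k)} := by
      refine card_le_card_of_injOn (fun x => b i + e i * x) ?_ ?_
      · intro x hx
        have hx' := mem_filter.1 (mem_coe.1 hx)
        obtain ⟨hx1, hx2, hx3⟩ := hx'
        rw [mem_Icc] at hx1
        apply mem_coe.2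
        rw [mem_filter, mem_Icc]
        refine ⟨⟨?_, ?_⟩, hx2, hx3⟩
        · change 1 ≤ b i + e i * x
          have := Nat.mul_le_mul (he i) hx1.1
          omega
        · change b i + e i * x ≤ b i + e i * X
          have := Nat.mul_le_mul_left (e i) hx1.2
          omega
      · intro x _ y _ hxy
        have hxy' : b i + e i * x = b i + e i * y := hxy
        have h6 : e i * x = e i * y := by omega
        exact Nat.eq_of_mul_eq_mul_left (he i) h6
    refine (Nat.cast_le.2 h5).trans (h4.trans ?_)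
    refine div_le_div_of_nonneg_right ?_ hsz.le
    push_cast
    have h6 : (b i : ℝ) ≤ b i * X := le_mul_of_one_le_right (Nat.cast_nonneg _) hX1r
    calc D i * ((b i : ℝ) + e i * X) ≤ D i * (b i * X + e i * X) :=
          mul_le_mul_of_nonneg_left (by linarith) (hD0 i)
      _ = D i * (b i + e i) * X := by ring
  have h4 : (#((Icc 1 X).filter (fun x => ∀ i, Rough z (b i + e i * x))) : ℝ) ≤
      (#{x ∈ Icc 1 X | ∀ i, ¬ Z (a i * (b i + e i * x))} : ℝ) + ∑ i, D i * (b i + e i) * X / √z := by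
    refine (Nat.cast_le.2 ((card_le_card h2).trans (card_union_le _ _))).trans ?_
    push_cast
    refine add_le_add (le_refl _) ?_
    refine (Nat.cast_le.2 card_biUnion_le).trans ?_
    push_cast
    exact sum_le_sum fun i _ => h3 i
  have h5 : ∑ i, D i * (b i + e i) * X / √z ≤ X * (S / √z) := by
    have h6 : ∑ i, D i * ((b i : ℝ) + e i) * X / √z = X * ((∑ i, D i * ((b i : ℝ) + e i)) / √z) := by
      rw [sum_div, mul_sum]
      exact sum_congr rfl fun i _ => by ring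
    rw [h6]
    refine mul_le_mul_of_nonneg_left (div_le_div_of_nonneg_right ?_ hsz.le) (Nat.cast_nonneg _)
    rw [hS]
    linarith
  have h6 : S / √z ≤ c / (2 * Real.log z ^ r) := by
    rw [div_le_div_iff₀ hsz (by positivity)]
    rw [div_le_div_iff₀ hsz (by positivity)] at hz1
    nlinarith
  have h7 : (X : ℝ) * (S / √z) ≤ X * (c / (2 * Real.log z ^ r)) :=
    mul_le_mul_of_nonneg_left h6 (Nat.cast_nonneg _)
  have h8 : c * X / Real.log z ^ r = 2 * (c / (2 * Real.log z ^ r) * X) := by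
    field_simp
  rw [h8] at h1
  linarith

open Classical in
/-- patterns -/
theorem pattern (Z : ℕ → Prop) (C : ℝ) (hC : 0 ≤ C) (hF : Few Z C) (r : ℕ) (c h a b : Fin r → ℕ) (x0 M : ℕ)
    (hM : 1 ≤ M) (hc : ∀ i, 1 ≤ c i) (ha : ∀ i, 1 ≤ a i) (hab : ∀ i, c i * x0 + h i = a i * b i)
    (hZ : ∀ i, ¬ Z (a i)) (hcop : ∀ i, Nat.Coprime (b i) (c i * M * (∏ j, a j) * (2 * r).factorial)) :
    ∃ δ : ℝ, 0 < δ ∧ ∃ X0 : ℕ, ∀ X : ℕ, X0 ≤ X →
      δ * X ≤ (#{x ∈ Icc 1 X | x ≡ x0 [MOD M] ∧ ∀ i, ¬ Z (c i * x + h i)} : ℝ) := by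
  obtain ⟨Q, hQ⟩ : ∃ Q : ℕ, Q = M * (∏ j, a j) * (2 * r).factorial := ⟨_, rfl⟩
  have hprod : 0 < ∏ j, a j := prod_pos fun j _ => ha j
  have hQ0 : 0 < Q := by
    rw [hQ]
    exact Nat.mul_pos (Nat.mul_pos hM hprod) (Nat.factorial_pos _)
  obtain ⟨e, he⟩ : ∃ e : Fin r → ℕ, e = fun i => c i * M * (∏ j ∈ univ.erase i, a j) * (2 * r).factorial :=
    ⟨_, rfl⟩
  have hprode : ∀ i, a i * ∏ j ∈ univ.erase i, a j = ∏ j, a j := fun i =>
    mul_prod_erase univ a (mem_univ i)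
  have hae : ∀ i, a i * e i = c i * Q := by
    intro i
    rw [he, hQ]
    simp only
    rw [← hprode i]
    ring
  have he0 : ∀ i, 0 < e i := by
    intro i
    rcases Nat.eq_zero_or_pos (e i) with h1 | h1
    · have h2 := hae i
      rw [h1, mul_zero] at h2
      have h3 := Nat.mul_pos (hc i) hQ0
      omega
    · exact h1
  have hcop' : ∀ i, Nat.Coprime (b i) (e i) := by
    intro i
    refine Nat.Coprime.coprime_dvd_right ?_ (hcop i)
    rw [he]
    simp only
    refine Nat.mul_dvd_mul (Nat.mul_dvd_mul_left _ ?_) dvd_rfl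
    exact ⟨a i, by rw [mul_comm]; exact (hprode i).symm⟩
  have hsm : ∀ p : ℕ, p.Prime → p ≤ 2 * r → ∀ i, p ∣ e i := by
    intro p hp hpr i
    rw [he]
    simp only
    exact Dvd.dvd.mul_left (Nat.dvd_factorial hp.pos hpr) _
  obtain ⟨δ, hδ, X0, hX0⟩ := good_forms Z C hC hF r a b e ha hZ he0 hcop' hsm
  refine ⟨δ / (2 * Q), by positivity, 2 * x0 + 2 * Q + 2 * Q * X0, fun X hX => ?_⟩
  obtain ⟨Y, hY⟩ : ∃ Y : ℕ, Y = (X - x0) / Q := ⟨_, rfl⟩
  have hY1 : Y * Q ≤ X - x0 := by rw [hY]; exact Nat.div_mul_le_self _ _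
  have hY2 : X - x0 < (Y + 1) * Q := by
    have := Nat.lt_div_mul_add (a := X - x0) hQ0
    rw [hY]
    nlinarith
  have hYX0 : X0 ≤ Y := by
    rw [hY, Nat.le_div_iff_mul_le hQ0]
    have h1 : X0 * Q ≤ 2 * Q * X0 := by nlinarith
    omega
  have h1 := hX0 Y hYX0
  have h2 : #{x ∈ Icc 1 Y | ∀ i, ¬ Z (a i * (b i + e i * x))} ≤
      #{x ∈ Icc 1 X | x ≡ x0 [MOD M] ∧ ∀ i, ¬ Z (c i * x + h i)} := by
    refine card_le_card_of_injOn (fun x => x0 + Q * x) ?_ ?_
    · intro x hx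
      have hx' := mem_filter.1 (mem_coe.1 hx)
      obtain ⟨hx1, hx2⟩ := hx'
      rw [mem_Icc] at hx1
      apply mem_coe.2
      rw [mem_filter, mem_Icc]
      refine ⟨⟨?_, ?_⟩, ?_, ?_⟩
      · change 1 ≤ x0 + Q * x
        have := Nat.mul_le_mul hQ0 hx1.1
        omega
      · change x0 + Q * x ≤ X
        have h3 := Nat.mul_le_mul_left Q hx1.2
        have h4 : Q * Y = Y * Q := mul_comm _ _
        omega
      · have h3 : Q ≡ 0 [MOD M] := (Nat.modEq_zero_iff_dvd).2 (by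
          rw [hQ, mul_assoc]; exact dvd_mul_right _ _)
        have h4 := (Nat.ModEq.refl (n := M) x0).add (h3.mul_right x)
        rw [zero_mul, add_zero] at h4
        exact h4
      · intro i
        have h3 := hx2 i
        have h4 : c i * (x0 + Q * x) + h i = a i * (b i + e i * x) := by
          calc c i * (x0 + Q * x) + h i = (c i * x0 + h i) + (c i * Q) * x := by ring
            _ = a i * b i + (a i * e i) * x := by rw [hab i, hae i]
            _ = a i * (b i + e i * x) := by ring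
        rw [h4]
        exact h3
    · intro x _ y _ hxy
      have hxy' : x0 + Q * x = x0 + Q * y := hxy
      have h6 : Q * x = Q * y := by omega
      exact Nat.eq_of_mul_eq_mul_left hQ0 h6
  refine le_trans ?_ (h1.trans (Nat.cast_le.2 h2))
  have hQr : (0 : ℝ) < Q := by exact_mod_cast hQ0
  have h3 : (X : ℝ) ≤ 2 * Q * Y := by
    have h4 : X ≤ 2 * Q * Y := by
      have h5 : X - x0 < Y * Q + Q := by linarith
      have h6 : 2 * Q * Y = 2 * (Y * Q) := by ring
      omega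
    exact_mod_cast h4
  calc δ / (2 * Q) * X ≤ δ / (2 * Q) * (2 * Q * Y) := mul_le_mul_of_nonneg_left h3 (by positivity)
    _ = δ * Y := by field_simp

open Classical in
/-- almost all rough numbers -/
theorem rough_almost (Z : ℕ → Prop) (C : ℝ) (hC : 0 ≤ C) (hF : Few Z C) (m : ℕ) (hm : 1 ≤ m) (hZ : ¬ Z m)
    (ε : ℝ) (hε : 0 < ε) : ∃ z0 : ℕ, ∀ z : ℕ, z0 ≤ z → ∃ X0 : ℕ, ∀ X : ℕ, X0 ≤ X →
      (#{k ∈ Icc 1 X | Rough z k ∧ Z (m * k)} : ℝ) ≤ ε * #{k ∈ Icc 1 X | Rough z k} := by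
  obtain ⟨c, hc, hsift⟩ := sift 1
  obtain ⟨D, hD0, hD⟩ := small Z C hC hF m hm hZ
  obtain ⟨z1, hz1⟩ := eventually_atTop.1 (log_small 1 (ε * c / (4 * (D + 1))) (by positivity))
  refine ⟨max z1 (m + 6), fun z hz => ?_⟩
  have hzz1 : z1 ≤ z := (le_max_left _ _).trans hz
  have hz6 : m + 6 ≤ z := (le_max_right _ _).trans hz
  have h1 := hz1 z hzz1
  have hz0 : (0 : ℝ) < z := by exact_mod_cast (show 0 < z by omega)
  have hsz : 0 < √(z : ℝ) := Real.sqrt_pos.2 hz0
  have hlogz : 0 < Real.log z := Real.log_pos (by exact_mod_cast (show 1 < z by omega))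
  obtain ⟨X0, hX0⟩ := hsift z (by omega) (fun _ => 1) (fun _ => 2) (fun _ => by decide) (by
    intro p hp hp2 _
    have : p = 2 := by have := hp.two_le; omega
    rw [this])
  refine ⟨2 * X0 + 5, fun X hX => ?_⟩
  obtain ⟨Y, hY⟩ : ∃ Y : ℕ, Y = (X - 1) / 2 := ⟨_, rfl⟩
  have hY1 : X0 ≤ Y := by omega
  have h2 := hX0 Y hY1
  have h3 : #{x ∈ Icc 1 Y | ∀ _ : Fin 1, Rough z (1 + 2 * x)} ≤ #{k ∈ Icc 1 X | Rough z k} := by
    refine card_le_card_of_injOn (fun x => 1 + 2 * x) ?_ ?_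
    · intro x hx
      have hx' := mem_filter.1 (mem_coe.1 hx)
      obtain ⟨hx1, hx2⟩ := hx'
      rw [mem_Icc] at hx1
      apply mem_coe.2
      rw [mem_filter, mem_Icc]
      refine ⟨⟨?_, ?_⟩, hx2 0⟩
      · change 1 ≤ 1 + 2 * x
        omega
      · change 1 + 2 * x ≤ X
        omega
    · intro x _ y _ hxy
      have hxy' : 1 + 2 * x = 1 + 2 * y := hxy
      omega
  have h4 := h2.trans (Nat.cast_le.2 h3)
  have h5 := hD z X (by omega) (by omega)
  have h6 : (X : ℝ) ≤ 4 * Y := by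
    have : X ≤ 4 * Y := by omega
    exact_mod_cast this
  have hY0 : (0 : ℝ) ≤ Y := Nat.cast_nonneg _
  calc (#{k ∈ Icc 1 X | Rough z k ∧ Z (m * k)} : ℝ) ≤ D * X / √z := h5
    _ ≤ (D + 1) * (4 * Y) / √z := by
        refine div_le_div_of_nonneg_right ?_ hsz.le
        nlinarith
    _ ≤ ε * (c * Y / Real.log z ^ 1) := by
        rw [div_le_iff₀ hsz]
        rw [div_le_div_iff₀ hsz (by positivity)] at h1
        have h7 : (D + 1) * (4 * Y) * Real.log z ^ 1 ≤ ε * c * Y * √z := by nlinarith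
        have h8 : ε * (c * Y / Real.log z ^ 1) * √z = ε * c * Y * √z / Real.log z ^ 1 := by
          ring
        rw [h8, le_div_iff₀ (by positivity)]
        exact h7
    _ ≤ ε * #{k ∈ Icc 1 X | Rough z k} := mul_le_mul_of_nonneg_left h4 hε.le

end Pool.Agent.H48.KV
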