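import Pool.Graph.R_pool_sql_team_seeded_35f281b4.K7.H32.LV.Main
import Pool.Agent.H48.KV.Main

/-! # The Kashaev invariants of a knot have few bad primes -/

set_option autoImplicit false

namespace Pool.Agent.H48.KV

open Finset Matrix Pool.Agent.H550R3.Jones Pool.Agent.K7.H32.LV
open scoped Real

/-- the divisibility of the norm, from the proof of the library theorem `t_bnd` -/
theorem norm_dvd (n : ℕ) (w : List (ℕ × Bool)) (hK : IsKnot n w) (m : ℕ) (hm : 2 ≤ m)
    (hne : cjones m n w (rt m) ≠ 0) : ∃ c : ℕ, 0 < c ∧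
      Real.log c ≤ 22 * (n + w.length) * m * (1 + Real.log m) ^ 2 ∧
      ∀ p a : ℕ, p.Prime → ¬ p ∣ 2 * m → cjones (m * p ^ a) n w (rt (m * p ^ a)) = 0 →
        p ^ Nat.totient (2 * m) ∣ c := by
  have h1 := s_cmp
  have h2 := s_pol
  have h3 := s_dig
  have hc := s_cyc
  have hn := s_nrm
  have hi := t_nri
  have hm1 : 1 ≤ m := by omega
  have hmem : ∀ z ∈ primitiveRoots (2 * m) ℂ, IsPrimitiveRoot z (2 * m) := fun z hz =>
    isPrimitiveRoot_of_mem_primitiveRoots hz
  obtain ⟨P, M0, hP⟩ := h2 m n w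
  obtain ⟨c, hcP⟩ := hi (2 * m) P (by omega)
  have hval : ∀ z ∈ primitiveRoots (2 * m) ℂ, ‖Polynomial.aeval z P‖ = ‖cjones m n w z‖ :=
    fun z hz => norm_eval h1 hP hm1 (hmem z hz)
  have hrt : rt m ∈ primitiveRoots (2 * m) ℂ :=
    (mem_primitiveRoots (by omega)).2 (rt_prim hm1)
  have hprod : 1 ≤ ∏ z ∈ primitiveRoots (2 * m) ℂ, ‖Polynomial.aeval z P‖ := by
    refine hn (2 * m) P (by omega) ⟨rt m, hrt, ?_⟩
    rw [← norm_ne_zero_iff, hval _ hrt, norm_ne_zero_iff]
    exact hne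
  have hcn : ((c.natAbs : ℕ) : ℝ) = ∏ z ∈ primitiveRoots (2 * m) ℂ, ‖cjones m n w z‖ := by
    rw [← Finset.prod_congr rfl hval, ← norm_prod, hcP, Complex.norm_intCast, Nat.cast_natAbs]
    simp
  have hc0 : c ≠ 0 := by
    rintro rfl
    rw [Finset.prod_congr rfl hval, ← hcn] at hprod
    norm_num at hprod
  have hpos : ∀ z ∈ primitiveRoots (2 * m) ℂ, 0 < ‖cjones m n w z‖ := by
    intro z hz
    rcases (norm_nonneg (cjones m n w z)).lt_or_eq with h | h
    · exact h
    · rw [Finset.prod_congr rfl hval, Finset.prod_eq_zero hz h.symm] at hprod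
      linarith
  have hcardφ : (primitiveRoots (2 * m) ℂ).card = Nat.totient (2 * m) :=
    Complex.card_primitiveRoots (2 * m)
  refine ⟨c.natAbs, Int.natAbs_pos.2 hc0, ?_, ?_⟩
  · rw [hcn, Real.log_prod (fun z hz => (hpos z hz).ne')]
    exact t_up s_ent s_sum s_avz m n w hm hpos
  intro p a hp hpm h0
  have hp2 : p ≠ 2 := by
    rintro rfl
    exact hpm (dvd_mul_right _ _)
  have ha : 0 < a := by
    rcases Nat.eq_zero_or_pos a with ha | ha
    · subst ha
      rw [pow_zero, mul_one] at h0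
      exact absurd h0 hne
    · exact ha
  -- all conjugates are divisible by `p`
  have hdiv : ∀ z ∈ primitiveRoots (2 * m) ℂ, IsIntegral ℤ (cjones m n w z / (p : ℂ)) := by
    intro z hz
    have hy := hmem z hz
    obtain ⟨c, hcc⟩ : ∃ c, p ^ a = 2 * c + 1 := by
      have : Odd (p ^ a) := (hp.odd_of_ne_two hp2).pow
      exact this
    have h6 := key h1 h2 h3 hc n w hK m p a (2 * m) z hm1 hp (by omega) hpm hy
      (fun hy0 => ?_) ⟨a, ha, by ring⟩ h0
    · obtain ⟨hy0, h7⟩ := h6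
      rw [h1 m n w z (prim_adm hm1 hy)]
      exact h7
    · have h9 : (Units.mk0 z hy0) ^ (2 * m) = 1 := by
        ext
        rw [Units.val_pow_eq_pow_val, Units.val_mk0, Units.val_one, hy.pow_eq_one]
      refine ⟨h9, ?_, fun j hj hjm => ?_⟩
      · rw [hcc, show m * (2 * c + 1 - 1) = 2 * m * c by
          rw [Nat.add_sub_cancel]; ring, pow_mul, h9, one_pow]
      · have h10 := (prim_adm hm1 hy).2 j hj hjm
        unfold br at h10
        unfold bR
        rw [Units.val_zpow_eq_zpow_val, Units.val_zpow_eq_zpow_val, Units.val_mk0]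
        exact h10
  -- `c / p ^ φ` is an algebraic integer
  have hint : IsIntegral ℤ ((c : ℂ) / ((p ^ Nat.totient (2 * m) : ℕ) : ℂ)) := by
    have h7 : (c : ℂ) / ((p ^ Nat.totient (2 * m) : ℕ) : ℂ) =
        ∏ z ∈ primitiveRoots (2 * m) ℂ, (cjones m n w z / (p : ℂ) * z ^ M0) := by
      rw [← hcP, ← hcardφ]
      push_cast
      rw [← Finset.prod_const, ← Finset.prod_div_distrib]
      refine Finset.prod_congr rfl fun z hz => ?_
      have hz0 : z ≠ 0 := (hmem z hz).ne_zero (by omega)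
      have h8 := hP ℂ (Units.mk0 z hz0)
      rw [Units.val_mk0, ← h1 m n w z (prim_adm hm1 (hmem z hz))] at h8
      rw [← h8]
      ring
    rw [h7]
    exact IsIntegral.prod _ fun z hz =>
      (hdiv z hz).mul (((hmem z hz).isIntegral (by omega)).pow _)
  have hdvd : ((p ^ Nat.totient (2 * m) : ℕ) : ℤ) ∣ c := by
    set q : ℕ := p ^ Nat.totient (2 * m) with hq
    have hq0 : (q : ℚ) ≠ 0 := by
      have : q ≠ 0 := pow_ne_zero _ hp.ne_zero
      exact_mod_cast this
    have h8 : IsIntegral ℤ (algebraMap ℚ ℂ ((c : ℚ) / q)) := by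
      convert hint using 1
      simp
    have h9 := (isIntegral_algebraMap_iff (algebraMap ℚ ℂ).injective).1 h8
    obtain ⟨d, hd⟩ := (IsIntegrallyClosed.isIntegral_iff (R := ℤ) (K := ℚ)).1 h9
    refine ⟨d, ?_⟩
    have h10 : (d : ℚ) = (c : ℚ) / q := by simpa using hd
    have h11 : (c : ℚ) = q * d := by rw [h10]; field_simp
    exact_mod_cast h11
  exact Int.natCast_dvd.1 hdvd

/-- `m ≤ φ(m) (1 + ω(m))` -/
theorem prod_primes_le (s : Finset ℕ) (hs : ∀ p ∈ s, 2 ≤ p) :
    (∏ p ∈ s, p) ≤ (s.card + 1) * ∏ p ∈ s, (p - 1) := by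
  induction s using Finset.induction_on_max with
  | empty => simp
  | insert q s hq ih =>
    have hqs : q ∉ s := fun h => lt_irrefl q (hq q h)
    have hs' : ∀ p ∈ s, 2 ≤ p := fun p hp => hs p (mem_insert_of_mem hp)
    have hq2 : 2 ≤ q := hs q (mem_insert_self _ _)
    have hcard : s.card + 2 ≤ q := by
      have h1 : s ⊆ Ico 2 q := by
        intro p hp
        rw [mem_Ico]
        exact ⟨hs' p hp, hq p hp⟩
      have h2 := card_le_card h1
      rw [Nat.card_Ico] at h2
      omega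
    rw [prod_insert hqs, prod_insert hqs, card_insert_of_notMem hqs]
    obtain ⟨u, hu⟩ : ∃ u, q = u + 1 := ⟨q - 1, by omega⟩
    have ih' := ih hs'
    rw [hu, Nat.add_sub_cancel]
    calc (u + 1) * ∏ p ∈ s, p ≤ (u + 1) * ((s.card + 1) * ∏ p ∈ s, (p - 1)) := Nat.mul_le_mul_left _ ih'
      _ = ((u + 1) * (s.card + 1)) * ∏ p ∈ s, (p - 1) := by ring
      _ ≤ ((s.card + 1 + 1) * u) * ∏ p ∈ s, (p - 1) := by
          refine Nat.mul_le_mul_right _ ?_
          nlinarith
      _ = (s.card + 1 + 1) * (u * ∏ p ∈ s, (p - 1)) := by ring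

theorem totient_ge (m : ℕ) (hm : 1 ≤ m) : m ≤ (m.primeFactors.card + 1) * Nat.totient m := by
  have h1 := Nat.totient_mul_prod_primeFactors m
  have h2 := prod_primes_le m.primeFactors (fun p hp => (Nat.prime_of_mem_primeFactors hp).two_le)
  have h3 : 0 < ∏ p ∈ m.primeFactors, (p - 1) := prod_pos fun p hp => by
    have := (Nat.prime_of_mem_primeFactors hp).two_le
    omega
  have h4 : m * ∏ p ∈ m.primeFactors, (p - 1) ≤
      (m.primeFactors.card + 1) * Nat.totient m * ∏ p ∈ m.primeFactors, (p - 1) := by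
    rw [← h1]
    calc Nat.totient m * ∏ p ∈ m.primeFactors, p
        ≤ Nat.totient m * ((m.primeFactors.card + 1) * ∏ p ∈ m.primeFactors, (p - 1)) :=
          Nat.mul_le_mul_left _ h2
      _ = _ := by ring
  exact Nat.le_of_mul_le_mul_right h4 h3

theorem card_primeFactors_le (m : ℕ) (hm : 1 ≤ m) : 2 ^ m.primeFactors.card ≤ m := by
  calc 2 ^ m.primeFactors.card = ∏ p ∈ m.primeFactors, 2 := by rw [prod_const]
    _ ≤ ∏ p ∈ m.primeFactors, p := prod_le_prod' fun p hp => (Nat.prime_of_mem_primeFactors hp).two_le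
    _ ≤ m := Nat.le_of_dvd hm (Nat.prod_primeFactors_dvd m)

theorem totient_ge_log (m : ℕ) (hm : 1 ≤ m) : (m : ℝ) ≤ 3 / 2 * (1 + Real.log m) * Nat.totient (2 * m) := by
  have h1 := totient_ge m hm
  have h2 := card_primeFactors_le m hm
  have hm0 : (0 : ℝ) < m := by exact_mod_cast hm
  have h3 : (m.primeFactors.card : ℝ) * Real.log 2 ≤ Real.log m := by
    have h4 : ((2 ^ m.primeFactors.card : ℕ) : ℝ) ≤ m := by exact_mod_cast h2
    have h5 := Real.log_le_log (by positivity) h4
    push_cast at h5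
    rwa [Real.log_pow] at h5
  have hl2 := Real.log_two_gt_d9
  have h4 : (m.primeFactors.card : ℝ) + 1 ≤ 3 / 2 * (1 + Real.log m) := by
    have h5 : (0 : ℝ) ≤ m.primeFactors.card := Nat.cast_nonneg _
    nlinarith
  have h5 : Nat.totient m ≤ Nat.totient (2 * m) :=
    Nat.le_of_dvd (Nat.totient_pos.2 (by omega)) (Nat.totient_dvd_of_dvd (dvd_mul_left m 2))
  have h6 : (m : ℝ) ≤ ((m.primeFactors.card : ℝ) + 1) * Nat.totient m := by exact_mod_cast h1
  have h7 : (Nat.totient m : ℝ) ≤ Nat.totient (2 * m) := by exact_mod_cast h5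
  have hl : 0 ≤ Real.log m := Real.log_natCast_nonneg m
  calc (m : ℝ) ≤ ((m.primeFactors.card : ℝ) + 1) * Nat.totient m := h6
    _ ≤ 3 / 2 * (1 + Real.log m) * Nat.totient (2 * m) :=
        mul_le_mul h4 h7 (Nat.cast_nonneg _) (by positivity)

/-- the Kashaev invariants of a knot have few bad primes -/
theorem few (n : ℕ) (w : List (ℕ × Bool)) (hK : IsKnot n w) :
    Few (fun N => cjones N n w (rt N) = 0) (33 * (n + w.length)) := by
  intro m hm hZ S hS
  have hlog : 0 ≤ Real.log m := Real.log_natCast_nonneg m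
  rcases Nat.lt_or_ge m 2 with h2 | h2
  · have hm1 : m = 1 := by omega
    subst hm1
    have hempty : S = ∅ := by
      rw [eq_empty_iff_forall_notMem]
      intro p hp
      obtain ⟨hpp, _, a, ha⟩ := hS p hp
      rw [one_mul] at ha
      exact prime_power n w hK p a hpp ha
    rw [hempty, sum_empty]
    positivity
  · obtain ⟨c, hc0, hc1, hc2⟩ := norm_dvd n w hK m h2 hZ
    have hdvd : (∏ p ∈ S, p ^ Nat.totient (2 * m)) ∣ c := by
      refine Finset.prod_dvd_of_isRelPrime ?_ ?_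
      · intro p hp q hq hpq
        exact Nat.coprime_iff_isRelPrime.1
          (((Nat.coprime_primes (hS p hp).1 (hS q hq).1).2 hpq).pow _ _)
      · intro p hp
        obtain ⟨hpp, hpm, a, ha⟩ := hS p hp
        exact hc2 p a hpp hpm ha
    have hle := Nat.le_of_dvd hc0 hdvd
    have hle' : (∏ p ∈ S, (p : ℝ) ^ Nat.totient (2 * m)) ≤ c := by exact_mod_cast hle
    have hpp : ∀ p ∈ S, (0 : ℝ) < p := fun p hp => by exact_mod_cast (hS p hp).1.pos
    have h3 := Real.log_le_log (prod_pos fun p hp => pow_pos (hpp p hp) _) hle'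
    rw [Real.log_prod (fun p hp => (pow_pos (hpp p hp) _).ne')] at h3
    have h4 : ∑ p ∈ S, Real.log ((p : ℝ) ^ Nat.totient (2 * m)) =
        Nat.totient (2 * m) * ∑ p ∈ S, Real.log p := by
      rw [mul_sum]
      exact sum_congr rfl fun p _ => Real.log_pow _ _
    rw [h4] at h3
    have h5 := h3.trans hc1
    have h6 := totient_ge_log m hm
    have h7 : (0 : ℝ) < Nat.totient (2 * m) := by exact_mod_cast Nat.totient_pos.2 (by omega)
    have h8 : (22 * (n + w.length) * m * (1 + Real.log m) ^ 2 : ℝ) ≤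
        22 * (n + w.length) * (3 / 2 * (1 + Real.log m) * Nat.totient (2 * m)) * (1 + Real.log m) ^ 2 := by
      gcongr
    have h9 : (Nat.totient (2 * m) : ℝ) * ∑ p ∈ S, Real.log p ≤
        Nat.totient (2 * m) * (33 * (n + w.length) * (1 + Real.log m) ^ 3) := by
      refine h5.trans (h8.trans (le_of_eq ?_))
      ring
    exact le_of_mul_le_mul_left h9 h7

end Pool.Agent.H48.KV
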