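import Mathlib
import Pool.Agent.H48.KV.Main

/-! # A uniform lower density, and the numbers with at most two prime factors -/

set_option autoImplicit false

namespace Pool.Agent.H48.KV

open Finset Filter Topology

open Classical in
/-- a uniform lower bound of the lower density -/
theorem uniform : ∃ c : ℝ, 0 < c ∧ ∀ (Z : ℕ → Prop) (T : ℕ), Few Z (33 * T) → ¬ Z 1 → ∃ X0 : ℕ, ∀ X : ℕ, X0 ≤ X →
    c / Real.log (2 + T) * X ≤ (#{N ∈ Icc 1 X | ¬ Z N} : ℝ) := by
  obtain ⟨c1, hc1, hsift⟩ := sift 1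
  obtain ⟨K, hK, hsum⟩ := small_sum
  obtain ⟨A, hA⟩ : ∃ A : ℕ, A = ⌈21120 * K / c1⌉₊ + 2 := ⟨_, rfl⟩
  have hA1 : 21120 * K / c1 ≤ A := by
    rw [hA]
    push_cast
    have := Nat.le_ceil (21120 * K / c1)
    linarith
  have hA2 : 21120 * K ≤ A * c1 := (div_le_iff₀ hc1).1 hA1
  have hA3 : (2 : ℝ) ≤ A := by
    have : 2 ≤ A := by omega
    exact_mod_cast this
  refine ⟨c1 / (80 * A), by positivity, ?_⟩
  intro Z T hF h1
  obtain ⟨q, hq⟩ : ∃ q : ℕ, q = 2 + T := ⟨_, rfl⟩
  obtain ⟨z, hz⟩ : ∃ z : ℕ, z = (A * q) ^ 4 := ⟨_, rfl⟩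
  have hq2 : 2 ≤ q := by omega
  have hqr : (2 : ℝ) ≤ q := by exact_mod_cast hq2
  have hq0 : (0 : ℝ) < q := by linarith
  have hAq : 4 ≤ A * q := by
    have : 2 ≤ A := by omega
    nlinarith
  have hz6 : 6 ≤ z := by
    rw [hz]
    calc 6 ≤ 4 ^ 4 := by norm_num
      _ ≤ (A * q) ^ 4 := Nat.pow_le_pow_left hAq 4
  have hsz : √(z : ℝ) = (A * q : ℝ) ^ 2 := by
    rw [hz]
    push_cast
    rw [show ((A : ℝ) * q) ^ 4 = (((A : ℝ) * q) ^ 2) ^ 2 by ring, Real.sqrt_sq (by positivity)]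
  have hlq : 0 < Real.log q := Real.log_pos (by linarith)
  have hlq2 : 0.69 ≤ Real.log q := by
    have h2 := Real.log_two_gt_d9
    have h3 := Real.log_le_log (by norm_num) hqr
    linarith
  have hlqq : Real.log q ≤ q := by
    have := Real.log_le_sub_one_of_pos hq0
    linarith
  have hlA : Real.log A ≤ A := by
    have := Real.log_le_sub_one_of_pos (show (0 : ℝ) < A by linarith)
    linarith
  have hlz : Real.log z = 4 * (Real.log A + Real.log q) := by
    rw [hz]
    push_cast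
    rw [Real.log_pow, Real.log_mul (by positivity) (by positivity)]
    push_cast
    ring
  have hlz1 : Real.log z ≤ 10 * A * Real.log q := by
    rw [hlz]
    have h2 : (A : ℝ) ≤ A * (1.45 * Real.log q) := le_mul_of_one_le_right (by positivity) (by linarith)
    nlinarith
  have hlz0 : 0 < Real.log z := Real.log_pos (by exact_mod_cast (show 1 < z by omega))
  obtain ⟨X0, hX0⟩ := hsift z (by omega) (fun _ => 1) (fun _ => 2) (fun _ => by decide) (by
    intro p hp hp2 _
    have : p = 2 := by have := hp.two_le; omega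
    rw [this])
  refine ⟨2 * X0 + 5, fun X hX => ?_⟩
  obtain ⟨Y, hY⟩ : ∃ Y : ℕ, Y = (X - 1) / 2 := ⟨_, rfl⟩
  have hY1 : X0 ≤ Y := by omega
  have h2 := hX0 Y hY1
  have h3 : #{x ∈ Icc 1 Y | ∀ _ : Fin 1, Rough z (1 + 2 * x)} ≤ #{k ∈ Icc 1 X | Rough z k} := by
    refine card_le_card_of_injOn (fun x => 1 + 2 * x) ?_ ?_
    · intro x hx
      have hx' := mem_filter.1 (mem_coe.1 hx)
      obtain ⟨hx1, hx2⟩ := hx'
      rw [mem_Icc] at hx1
      apply mem_coe.2
      rw [mem_filter, mem_Icc]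
      refine ⟨⟨?_, ?_⟩, hx2 0⟩
      · change 1 ≤ 1 + 2 * x
        omega
      · change 1 + 2 * x ≤ X
        omega
    · intro x _ y _ hxy
      have hxy' : 1 + 2 * x = 1 + 2 * y := hxy
      omega
  have h4 := h2.trans (Nat.cast_le.2 h3)
  have h5 := count_le Z (33 * T) (by positivity) hF 1 z X le_rfl h1 (by omega) (by omega)
  have h6 := hsum 1 z X le_rfl hz6
  have h7 : ∑ l ∈ (Icc 1 X).filter (Rough z), (33 * (T : ℝ)) * (1 + Real.log ((1 * l : ℕ) : ℝ)) ^ 3 / (l * top z l) =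
      (33 * (T : ℝ)) * ∑ l ∈ (Icc 1 X).filter (Rough z), (1 + Real.log ((1 * l : ℕ) : ℝ)) ^ 3 / (l * top z l) := by
    rw [mul_sum]
    exact sum_congr rfl fun l _ => by ring
  rw [h7] at h5
  have h8 : (#{k ∈ Icc 1 X | Rough z k ∧ Z (1 * k)} : ℝ) ≤ X * (33 * T * (8 * K / √z)) := by
    refine h5.trans (mul_le_mul_of_nonneg_left (mul_le_mul_of_nonneg_left ?_ (by positivity)) (Nat.cast_nonneg _))
    refine h6.trans (le_of_eq ?_)
    rw [Nat.cast_one, Real.log_one]
    norm_num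
    ring
  have h9 : #{k ∈ Icc 1 X | Rough z k} ≤ #{N ∈ Icc 1 X | ¬ Z N} + #{k ∈ Icc 1 X | Rough z k ∧ Z (1 * k)} := by
    refine le_trans (card_le_card ?_) (card_union_le _ _)
    intro k hk
    rw [mem_filter] at hk
    rw [mem_union, mem_filter, mem_filter, one_mul]
    by_cases h : Z k
    · exact Or.inr ⟨hk.1, hk.2, h⟩
    · exact Or.inl ⟨hk.1, h⟩
  have h10 : (#{k ∈ Icc 1 X | Rough z k} : ℝ) ≤
      #{N ∈ Icc 1 X | ¬ Z N} + #{k ∈ Icc 1 X | Rough z k ∧ Z (1 * k)} := by exact_mod_cast h9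
  have h11 : (X : ℝ) ≤ 4 * Y := by
    have : X ≤ 4 * Y := by omega
    exact_mod_cast this
  have hX0' : (0 : ℝ) ≤ X := Nat.cast_nonneg _
  -- the main term
  have h12 : c1 / (40 * A * Real.log q) * X ≤ c1 * Y / Real.log z ^ 1 := by
    rw [pow_one, div_mul_eq_mul_div, div_le_div_iff₀ (by positivity) hlz0]
    have h13 : (X : ℝ) * Real.log z ≤ (4 * Y) * (10 * A * Real.log q) :=
      mul_le_mul h11 hlz1 hlz0.le (by positivity)
    nlinarith
  -- the bad term
  have h14 : (X : ℝ) * (33 * T * (8 * K / √z)) ≤ c1 / (80 * A * Real.log q) * X := by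
    rw [mul_comm (X : ℝ)]
    refine mul_le_mul_of_nonneg_right ?_ hX0'
    rw [hsz]
    have hT : (T : ℝ) ≤ q := by
      rw [hq]
      push_cast
      linarith
    have h15 : 33 * (T : ℝ) * (8 * K / ((A : ℝ) * q) ^ 2) ≤ 33 * q * (8 * K / ((A : ℝ) * q) ^ 2) := by
      gcongr
    refine h15.trans ?_
    have h16 : 33 * (q : ℝ) * (8 * K / ((A : ℝ) * q) ^ 2) = 264 * K / (A ^ 2 * q) := by
      field_simp
      ring
    rw [h16, div_le_div_iff₀ (by positivity) (by positivity)]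
    have h17 : 264 * K * (80 * A * Real.log q) ≤ 264 * K * (80 * A * q) := by gcongr
    refine h17.trans ?_
    have h18 : 21120 * K * ((A : ℝ) * q) ≤ A * c1 * (A * q) := mul_le_mul_of_nonneg_right hA2 (by positivity)
    nlinarith
  have h19 : c1 / (80 * A) / Real.log (2 + T) * X = c1 / (80 * A * Real.log q) * X := by
    rw [hq]
    push_cast
    rw [div_div]
  have h20 : c1 / (40 * A * Real.log q) * X = 2 * (c1 / (80 * A * Real.log q) * X) := by
    field_simp
    ring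
  rw [h19]
  rw [h20] at h12
  linarith

open Classical in
theorem card_bad (Z : ℕ → Prop) (C : ℝ) (hC : 0 ≤ C) (hF : Few Z C) (X m : ℕ) (hm : 1 ≤ m) (hmX : m ≤ X) (hZ : ¬ Z m) :
    (#{p ∈ Icc 1 X | p.Prime ∧ ¬ p ∣ 2 * m ∧ ∃ a : ℕ, Z (m * p ^ a)} : ℝ) ≤ C * (1 + Real.log X) ^ 3 := by
  have h1 := hF m hm hZ ((Icc 1 X).filter (fun p => p.Prime ∧ ¬ p ∣ 2 * m ∧ ∃ a : ℕ, Z (m * p ^ a))) (by
    intro p hp
    exact (mem_filter.1 hp).2)
  have h2 : ((#{p ∈ Icc 1 X | p.Prime ∧ ¬ p ∣ 2 * m ∧ ∃ a : ℕ, Z (m * p ^ a)} : ℕ) : ℝ) ≤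
      ∑ p ∈ (Icc 1 X).filter (fun p => p.Prime ∧ ¬ p ∣ 2 * m ∧ ∃ a : ℕ, Z (m * p ^ a)), Real.log p := by
    rw [card_eq_sum_ones]
    push_cast
    refine sum_le_sum fun p hp => ?_
    obtain ⟨_, hpp, hpm, _⟩ := mem_filter.1 hp
    have hp2 : p ≠ 2 := by
      rintro rfl
      exact hpm (dvd_mul_right _ _)
    have hp3 : 3 ≤ p := by
      have := hpp.two_le
      omega
    have hp3' : (3 : ℝ) ≤ p := by exact_mod_cast hp3
    rw [Real.le_log_iff_exp_le (by linarith)]
    have := Real.exp_one_lt_d9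
    linarith
  refine h2.trans (h1.trans ?_)
  have hm0 : (0 : ℝ) < m := by exact_mod_cast hm
  have h3 : Real.log m ≤ Real.log X := Real.log_le_log hm0 (by exact_mod_cast hmX)
  have h4 : 0 ≤ Real.log m := Real.log_natCast_nonneg m
  gcongr

/-- a number with two prime factors -/
theorem two_factors (N : ℕ) (hN : N ≠ 0) (h : N.primeFactors.card = 2) :
    ∃ p q a b : ℕ, p.Prime ∧ q.Prime ∧ p ≠ q ∧ 0 < a ∧ 0 < b ∧ N = p ^ a * q ^ b ∧ p ^ a < q ^ b := by
  obtain ⟨p, q, hpq, hs⟩ := card_eq_two.1 h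
  have hp : p ∈ N.primeFactors := by rw [hs]; simp
  have hq : q ∈ N.primeFactors := by rw [hs]; simp
  have hpp := Nat.prime_of_mem_primeFactors hp
  have hqp := Nat.prime_of_mem_primeFactors hq
  have ha := hpp.factorization_pos_of_dvd hN (Nat.dvd_of_mem_primeFactors hp)
  have hb := hqp.factorization_pos_of_dvd hN (Nat.dvd_of_mem_primeFactors hq)
  have hprod : N = p ^ N.factorization p * q ^ N.factorization q := by
    have h1 := Nat.prod_factorization_pow_eq_self hN
    rw [Finsupp.prod, Nat.support_factorization, hs, prod_pair hpq] at h1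
    exact h1.symm
  have hcop : Nat.Coprime (p ^ N.factorization p) (q ^ N.factorization q) :=
    (((Nat.coprime_primes hpp hqp).2 hpq).pow _ _)
  have hne : p ^ N.factorization p ≠ q ^ N.factorization q := by
    intro h1
    rw [← h1, Nat.coprime_self] at hcop
    have := Nat.one_lt_pow ha.ne' hpp.one_lt
    omega
  rcases lt_or_gt_of_ne hne with h1 | h1
  · exact ⟨p, q, _, _, hpp, hqp, hpq, ha, hb, hprod, h1⟩
  · exact ⟨q, p, _, _, hqp, hpp, hpq.symm, hb, ha, by rw [mul_comm]; exact hprod, h1⟩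

open Classical in
/-- the numbers with at most two prime factors -/
theorem two_primes (Z : ℕ → Prop) (C : ℝ) (hC : 0 ≤ C) (hF : Few Z C) (hpp : ∀ p a : ℕ, p.Prime → ¬ Z (p ^ a))
    (X : ℕ) (hX : 1 ≤ X) :
    (#{N ∈ Icc 1 X | N.primeFactors.card ≤ 2 ∧ Z N} : ℝ) ≤ 6 * C * √X * (1 + Real.log X) ^ 4 := by
  obtain ⟨L, hL⟩ : ∃ L : ℕ, L = Nat.log 2 X := ⟨_, rfl⟩
  obtain ⟨S, hS⟩ : ∃ S : ℕ → Finset ℕ, S = fun m => (Icc 1 X).filter
    (fun p => p.Prime ∧ ¬ p ∣ 2 * m ∧ ∃ a : ℕ, Z (m * p ^ a)) := ⟨_, rfl⟩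
  obtain ⟨R, hR⟩ : ∃ R : Finset ℕ, R = (Icc 1 (Nat.sqrt X)).filter (fun m => ¬ Z m) := ⟨_, rfl⟩
  obtain ⟨R2, hR2⟩ : ∃ R2 : Finset ℕ, R2 = (range (L + 1)).filter (fun b => 2 ^ b ≤ X) := ⟨_, rfl⟩
  have hexp : ∀ p a : ℕ, 2 ≤ p → p ^ a ≤ X → a < L + 1 := by
    intro p a hp ha
    have h1 : 2 ^ a ≤ X := (Nat.pow_le_pow_left hp a).trans ha
    have h2 := Nat.le_log_of_pow_le (by norm_num) h1
    omega
  have hsub : (Icc 1 X).filter (fun N => N.primeFactors.card ≤ 2 ∧ Z N) ⊆
      R.biUnion (fun m => (S m).biUnion (fun q => (range (L + 1)).image (fun b => m * q ^ b))) ∪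
      R2.biUnion (fun b => (S (2 ^ b)).biUnion (fun p => (range (L + 1)).image (fun a => 2 ^ b * p ^ a))) := by
    intro N hN
    rw [mem_filter, mem_Icc] at hN
    obtain ⟨⟨hN1, hNX⟩, hcard, hZN⟩ := hN
    have hN0 : N ≠ 0 := by omega
    have hcard2 : N.primeFactors.card = 2 := by
      rcases Nat.lt_or_ge N.primeFactors.card 2 with h | h
      · exfalso
        rcases Nat.lt_or_ge N.primeFactors.card 1 with h0 | h0
        · have h1 : N.primeFactors = ∅ := card_eq_zero.1 (by omega)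
          rw [Nat.primeFactors_eq_empty] at h1
          have h2 := hpp 2 0 Nat.prime_two
          rw [pow_zero] at h2
          rcases h1 with h1 | h1
          · exact hN0 h1
          · rw [h1] at hZN
            exact h2 hZN
        · obtain ⟨p, hp⟩ := card_eq_one.1 (show N.primeFactors.card = 1 by omega)
          have hpp' : p.Prime := Nat.prime_of_mem_primeFactors (show p ∈ N.primeFactors by rw [hp]; simp)
          have h1 := Nat.prod_factorization_pow_eq_self hN0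
          rw [Finsupp.prod, Nat.support_factorization, hp, prod_singleton] at h1
          rw [← h1] at hZN
          exact hpp p _ hpp' hZN
      · omega
    obtain ⟨p, q, a, b, hp, hq, hpq, ha, hb, hNe, hlt⟩ := two_factors N hN0 hcard2
    have hpa1 : 1 ≤ p ^ a := Nat.one_le_pow _ _ hp.pos
    have hqb1 : 1 ≤ q ^ b := Nat.one_le_pow _ _ hq.pos
    have hpaX : p ^ a ≤ X := (Nat.le_mul_of_pos_right _ hqb1).trans (hNe ▸ hNX)
    have hqbX : q ^ b ≤ X := (Nat.le_mul_of_pos_left _ hpa1).trans (hNe ▸ hNX)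
    have hpX : p ≤ X := (Nat.le_self_pow ha.ne' p).trans hpaX
    have hqX : q ≤ X := (Nat.le_self_pow hb.ne' q).trans hqbX
    rw [mem_union]
    by_cases hq2 : q = 2
    · right
      subst hq2
      rw [mem_biUnion]
      refine ⟨b, ?_, ?_⟩
      · rw [hR2, mem_filter, mem_range]
        exact ⟨hexp 2 b le_rfl hqbX, hqbX⟩
      · rw [mem_biUnion]
        refine ⟨p, ?_, ?_⟩
        · rw [hS, mem_filter, mem_Icc]
          refine ⟨⟨hp.pos, hpX⟩, hp, ?_, a, ?_⟩
          · intro hd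
            rw [← pow_succ', ] at hd
            have := (Nat.prime_dvd_prime_iff_eq hp Nat.prime_two).1 (hp.dvd_of_dvd_pow hd)
            exact hpq this
          · rw [mul_comm, ← hNe]
            exact hZN
        · rw [mem_image]
          exact ⟨a, mem_range.2 (hexp p a hp.two_le hpaX), by rw [mul_comm]; exact hNe.symm⟩
    · left
      rw [mem_biUnion]
      refine ⟨p ^ a, ?_, ?_⟩
      · rw [hR, mem_filter, mem_Icc]
        refine ⟨⟨hpa1, ?_⟩, hpp p a hp⟩
        rw [Nat.le_sqrt]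
        exact (Nat.mul_le_mul_left _ hlt.le).trans (hNe ▸ hNX)
      · rw [mem_biUnion]
        refine ⟨q, ?_, ?_⟩
        · rw [hS, mem_filter, mem_Icc]
          refine ⟨⟨hq.pos, hqX⟩, hq, ?_, b, ?_⟩
          · intro hd
            rw [hq.dvd_mul] at hd
            rcases hd with hd | hd
            · exact hq2 ((Nat.prime_dvd_prime_iff_eq hq Nat.prime_two).1 hd)
            · exact hpq ((Nat.prime_dvd_prime_iff_eq hq hp).1 (hq.dvd_of_dvd_pow hd)).symm
          · rw [← hNe]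
            exact hZN
        · rw [mem_image]
          exact ⟨b, mem_range.2 (hexp q b hq.two_le hqbX), hNe.symm⟩
  have hX1r : (1 : ℝ) ≤ X := by exact_mod_cast hX
  have hlog : 0 ≤ Real.log X := Real.log_nonneg hX1r
  have hl2 := Real.log_two_gt_d9
  have hLlog : (L : ℝ) * Real.log 2 ≤ Real.log X := by
    have h1 : 2 ^ L ≤ X := by rw [hL]; exact Nat.pow_log_le_self 2 (by omega)
    have h2 : ((2 ^ L : ℕ) : ℝ) ≤ X := by exact_mod_cast h1
    have h3 := Real.log_le_log (by positivity) h2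
    push_cast at h3
    rwa [Real.log_pow] at h3
  have hL0 : (0 : ℝ) ≤ L := Nat.cast_nonneg _
  have hL1 : (L : ℝ) + 1 ≤ 3 / 2 * (1 + Real.log X) := by nlinarith
  have hsx : 1 ≤ √(X : ℝ) := by
    rw [Real.one_le_sqrt]
    exact hX1r
  have hL2 : (L : ℝ) + 1 ≤ 3 * √X := by
    have h1 : Real.log X = 2 * Real.log (√(X : ℝ)) := by
      rw [Real.log_sqrt (by linarith)]
      ring
    have h2 := Real.log_le_sub_one_of_pos (show 0 < √(X : ℝ) by linarith)
    nlinarith
  obtain ⟨B, hB⟩ : ∃ B : ℝ, B = C * (1 + Real.log X) ^ 3 := ⟨_, rfl⟩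
  have hB0 : 0 ≤ B := by rw [hB]; positivity
  have hSm : ∀ m : ℕ, 1 ≤ m → m ≤ X → ¬ Z m → ((S m).card : ℝ) ≤ B := by
    intro m hm hmX hZ
    rw [hS, hB]
    exact card_bad Z C hC hF X m hm hmX hZ
  have h1 : ((R.biUnion (fun m => (S m).biUnion (fun q => (range (L + 1)).image (fun b => m * q ^ b)))).card : ℝ) ≤
      √X * (B * (L + 1)) := by
    refine (Nat.cast_le.2 card_biUnion_le).trans ?_
    push_cast
    have h2 : ∀ m ∈ R, (((S m).biUnion (fun q => (range (L + 1)).image (fun b => m * q ^ b))).card : ℝ) ≤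
        B * (L + 1) := by
      intro m hm
      rw [hR, mem_filter, mem_Icc] at hm
      refine (Nat.cast_le.2 card_biUnion_le).trans ?_
      push_cast
      have h3 : ∀ q ∈ S m, (((range (L + 1)).image (fun b => m * q ^ b)).card : ℝ) ≤ L + 1 := by
        intro q _
        have := card_image_le (s := range (L + 1)) (f := fun b => m * q ^ b)
        rw [card_range] at this
        exact_mod_cast this
      refine (sum_le_sum h3).trans ?_
      rw [sum_const, nsmul_eq_mul]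
      exact mul_le_mul_of_nonneg_right (hSm m hm.1.1 (hm.1.2.trans (Nat.sqrt_le_self X)) hm.2) (by positivity)
    refine (sum_le_sum h2).trans ?_
    rw [sum_const, nsmul_eq_mul]
    refine mul_le_mul_of_nonneg_right ?_ (by positivity)
    have h4 : R.card ≤ Nat.sqrt X := by
      rw [hR]
      refine (card_filter_le _ _).trans ?_
      simp
    calc (R.card : ℝ) ≤ (Nat.sqrt X : ℝ) := by exact_mod_cast h4
      _ ≤ √X := Real.nat_sqrt_le_real_sqrt
  have h5 : ((R2.biUnion (fun b => (S (2 ^ b)).biUnion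
      (fun p => (range (L + 1)).image (fun a => 2 ^ b * p ^ a)))).card : ℝ) ≤ (L + 1) * (B * (L + 1)) := by
    refine (Nat.cast_le.2 card_biUnion_le).trans ?_
    push_cast
    have h2 : ∀ b ∈ R2, (((S (2 ^ b)).biUnion (fun p => (range (L + 1)).image (fun a => 2 ^ b * p ^ a))).card : ℝ) ≤
        B * (L + 1) := by
      intro b hb
      rw [hR2, mem_filter] at hb
      refine (Nat.cast_le.2 card_biUnion_le).trans ?_
      push_cast
      have h3 : ∀ p ∈ S (2 ^ b), (((range (L + 1)).image (fun a => 2 ^ b * p ^ a)).card : ℝ) ≤ L + 1 := by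
        intro p _
        have := card_image_le (s := range (L + 1)) (f := fun a => 2 ^ b * p ^ a)
        rw [card_range] at this
        exact_mod_cast this
      refine (sum_le_sum h3).trans ?_
      rw [sum_const, nsmul_eq_mul]
      exact mul_le_mul_of_nonneg_right (hSm (2 ^ b) Nat.one_le_two_pow hb.2 (hpp 2 b Nat.prime_two)) (by positivity)
    refine (sum_le_sum h2).trans ?_
    rw [sum_const, nsmul_eq_mul]
    refine mul_le_mul_of_nonneg_right ?_ (by positivity)
    have h4 : R2.card ≤ L + 1 := by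
      rw [hR2]
      refine (card_filter_le _ _).trans ?_
      simp
    exact_mod_cast h4
  have h6 : (#{N ∈ Icc 1 X | N.primeFactors.card ≤ 2 ∧ Z N} : ℝ) ≤
      √X * (B * (L + 1)) + (L + 1) * (B * (L + 1)) := by
    refine (Nat.cast_le.2 ((card_le_card hsub).trans (card_union_le _ _))).trans ?_
    push_cast
    exact add_le_add h1 h5
  refine h6.trans ?_
  calc √X * (B * (L + 1)) + (L + 1) * (B * (L + 1)) = B * (L + 1) * (√X + (L + 1)) := by ring
    _ ≤ B * (L + 1) * (4 * √X) := mul_le_mul_of_nonneg_left (by linarith) (by positivity)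
    _ ≤ B * (3 / 2 * (1 + Real.log X)) * (4 * √X) := by
        refine mul_le_mul_of_nonneg_right (mul_le_mul_of_nonneg_left hL1 hB0) (by positivity)
    _ = 6 * C * √X * (1 + Real.log X) ^ 4 := by rw [hB]; ring

theorem sum_biUnion_le' {s : ℕ} (A : Fin s → Finset ℕ) (f : ℕ → ℝ) (hf : ∀ p, 0 ≤ f p) :
    ∑ p ∈ (univ : Finset (Fin s)).biUnion A, f p ≤ ∑ j, ∑ p ∈ A j, f p := by
  have key : ∀ t : Finset (Fin s), ∑ p ∈ t.biUnion A, f p ≤ ∑ j ∈ t, ∑ p ∈ A j, f p := by
    intro t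
    induction t using Finset.induction_on with
    | empty => simp
    | insert j t hj ih =>
      rw [biUnion_insert, sum_insert hj]
      have h1 := sum_union_inter (s₁ := A j) (s₂ := t.biUnion A) (f := f)
      have h2 : 0 ≤ ∑ p ∈ A j ∩ t.biUnion A, f p := sum_nonneg fun p _ => hf p
      linarith
  exact key univ

/-- finite unions -/
theorem few_union (s : ℕ) (Z : Fin s → ℕ → Prop) (C : Fin s → ℝ) (hF : ∀ j, Few (Z j) (C j)) :
    Few (fun N => ∃ j, Z j N) (∑ j, C j) := by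
  classical
  intro m hm hZ S hS
  have hZ' : ∀ j, ¬ Z j m := fun j hj => hZ ⟨j, hj⟩
  have h1 : ∀ j, ∑ p ∈ S.filter (fun p => ∃ a : ℕ, Z j (m * p ^ a)), Real.log p ≤ C j * (1 + Real.log m) ^ 3 := by
    intro j
    refine hF j m hm (hZ' j) _ ?_
    intro p hp
    rw [mem_filter] at hp
    exact ⟨(hS p hp.1).1, (hS p hp.1).2.1, hp.2⟩
  have h2 : S ⊆ (univ : Finset (Fin s)).biUnion (fun j => S.filter (fun p => ∃ a : ℕ, Z j (m * p ^ a))) := by
    intro p hp
    obtain ⟨_, _, a, j, hj⟩ := hS p hp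
    rw [mem_biUnion]
    exact ⟨j, mem_univ _, by rw [mem_filter]; exact ⟨hp, a, hj⟩⟩
  calc ∑ p ∈ S, Real.log p
      ≤ ∑ p ∈ (univ : Finset (Fin s)).biUnion (fun j => S.filter (fun p => ∃ a : ℕ, Z j (m * p ^ a))), Real.log p :=
        sum_le_sum_of_subset_of_nonneg h2 fun p _ _ => Real.log_natCast_nonneg p
    _ ≤ ∑ j, ∑ p ∈ S.filter (fun p => ∃ a : ℕ, Z j (m * p ^ a)), Real.log p := by
        exact sum_biUnion_le' _ _ fun p => Real.log_natCast_nonneg p
    _ ≤ ∑ j, C j * (1 + Real.log m) ^ 3 := sum_le_sum fun j _ => h1 j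
    _ = (∑ j, C j) * (1 + Real.log m) ^ 3 := by rw [sum_mul]

end Pool.Agent.H48.KV
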